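import Mathlib
import Pool.Agent.N511.LL.Stm
import Pool.Agent.H305R2.MertensE

/-! Mertens' theorem for the truncated products. -/

set_option autoImplicit false

namespace Pool.Agent.V5helper51.LL

open Finset Filter Topology
open Pool.Agent.N511.LL

lemma mem_PP {y p : ℕ} : p ∈ PP y ↔ p.Prime ∧ 3 ≤ p ∧ p ≤ y := by
  unfold PP
  simp only [mem_filter, mem_Icc]
  tauto

lemma icc_PP {y : ℕ} (hy : 2 ≤ y) : (Icc 1 y).filter Nat.Prime = insert 2 (PP y) := by
  ext p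
  rw [mem_insert, mem_PP, mem_filter, mem_Icc]
  constructor
  · rintro ⟨⟨h1, h2⟩, h3⟩
    have h4 := h3.two_le
    rcases Nat.lt_or_ge 2 p with h | h
    · exact Or.inr ⟨h3, h, h2⟩
    · exact Or.inl (by omega)
  · rintro (rfl | ⟨h1, h2, h3⟩)
    · exact ⟨⟨by norm_num, hy⟩, Nat.prime_two⟩
    · exact ⟨⟨by omega, h3⟩, h1⟩

lemma fac_bound (n : ℕ) : (1 / 2 : ℝ) * (1 + 1 / ((n : ℝ) + 1)) ≤
    ∏ k ∈ Icc 2 (n + 1), (1 - 1 / (k : ℝ) ^ 2) := by
  induction n with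
  | zero => norm_num
  | succ n ih =>
    rw [prod_Icc_succ_top (by omega)]
    have h1 : (0 : ℝ) ≤ 1 - 1 / (((n + 1 + 1 : ℕ) : ℝ)) ^ 2 := by
      push_cast
      rw [sub_nonneg, div_le_one (by positivity)]
      nlinarith [(Nat.cast_nonneg n : (0 : ℝ) ≤ n)]
    refine le_trans ?_ (mul_le_mul_of_nonneg_right ih h1)
    push_cast
    have hn : (0 : ℝ) ≤ n := Nat.cast_nonneg n
    rw [← sub_nonneg]
    have : 1 / 2 * (1 + 1 / ((n : ℝ) + 1)) * (1 - 1 / ((n : ℝ) + 1 + 1) ^ 2) -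
        1 / 2 * (1 + 1 / ((n : ℝ) + 1 + 1)) = 0 := by
      field_simp
      ring
    rw [this]

theorem m0 : M0 := by
  have hmt := Pool.Agent.H305R2.mertens_three
  have h1 : Tendsto (fun y : ℕ => (∏ p ∈ PP y, (1 + 1 / ((p : ℝ) - 1))) / Real.log y) atTop (𝓝 (eg / 2)) := by
    have h2 := hmt.div_const 2
    refine h2.congr' ?_
    filter_upwards [eventually_ge_atTop 2] with y hy
    rw [icc_PP hy, prod_insert (by rw [mem_PP]; omega)]
    have h3 : ∏ p ∈ PP y, (1 - ((p : ℝ))⁻¹)⁻¹ = ∏ p ∈ PP y, (1 + 1 / ((p : ℝ) - 1)) := by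
      apply prod_congr rfl
      intro p hp
      rw [mem_PP] at hp
      have h4 : (3 : ℝ) ≤ p := by exact_mod_cast hp.2.1
      have h5 : (p : ℝ) - 1 ≠ 0 := by linarith
      have h6 : (p : ℝ) ≠ 0 := by linarith
      field_simp
      ring
    rw [h3]
    push_cast
    ring
  refine ⟨h1, ?_⟩
  have hfac : ∀ p : ℕ, 3 ≤ p → 0 < 1 - 1 / ((p : ℝ) - 1) ^ 2 ∧ 1 - 1 / ((p : ℝ) - 1) ^ 2 ≤ 1 := by
    intro p hp
    have h4 : (3 : ℝ) ≤ p := by exact_mod_cast hp
    constructor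
    · rw [sub_pos, div_lt_one (by nlinarith)]
      nlinarith
    · have : 0 ≤ 1 / ((p : ℝ) - 1) ^ 2 := by positivity
      linarith
  have hanti : Antitone (fun y : ℕ => ∏ p ∈ PP y, (1 - 1 / ((p : ℝ) - 1) ^ 2)) := by
    intro a b hab
    have hsub : PP a ⊆ PP b := by
      intro p hp
      rw [mem_PP] at hp ⊢
      exact ⟨hp.1, hp.2.1, hp.2.2.trans hab⟩
    simp only
    rw [← prod_sdiff hsub]
    have h2 : ∏ p ∈ PP b \ PP a, (1 - 1 / ((p : ℝ) - 1) ^ 2) ≤ 1 := by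
      apply prod_le_one
      · intro p hp
        rw [Finset.mem_sdiff, mem_PP] at hp
        exact (hfac p hp.1.2.1).1.le
      · intro p hp
        rw [Finset.mem_sdiff, mem_PP] at hp
        exact (hfac p hp.1.2.1).2
    have h3 : 0 ≤ ∏ p ∈ PP a, (1 - 1 / ((p : ℝ) - 1) ^ 2) := by
      apply prod_nonneg
      intro p hp
      rw [mem_PP] at hp
      exact (hfac p hp.2.1).1.le
    nlinarith
  have hlow : ∀ y : ℕ, (1 / 2 : ℝ) ≤ ∏ p ∈ PP y, (1 - 1 / ((p : ℝ) - 1) ^ 2) := by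
    intro y
    have h2 : ∏ k ∈ Icc 2 (y + 1), (1 - 1 / (k : ℝ) ^ 2) ≤ ∏ p ∈ PP y, (1 - 1 / ((p : ℝ) - 1) ^ 2) := by
      have h3 : ∏ p ∈ PP y, (1 - 1 / ((p : ℝ) - 1) ^ 2) = ∏ k ∈ (PP y).image (fun p : ℕ => p - 1), (1 - 1 / (k : ℝ) ^ 2) := by
        rw [prod_image]
        · apply prod_congr rfl
          intro p hp
          rw [mem_PP] at hp
          have : ((p - 1 : ℕ) : ℝ) = (p : ℝ) - 1 := by
            rw [Nat.cast_sub (by omega)]
            simp
          rw [this]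
        · intro a ha b hb hab
          rw [mem_coe, mem_PP] at ha hb
          simp only at hab
          omega
      rw [h3]
      have hsub : (PP y).image (fun p : ℕ => p - 1) ⊆ Icc 2 (y + 1) := by
        intro k hk
        rw [mem_image] at hk
        obtain ⟨p, hp, rfl⟩ := hk
        rw [mem_PP] at hp
        rw [mem_Icc]
        omega
      rw [← prod_sdiff hsub]
      have hf2 : ∀ k ∈ Icc 2 (y + 1), 0 ≤ 1 - 1 / (k : ℝ) ^ 2 ∧ 1 - 1 / (k : ℝ) ^ 2 ≤ 1 := by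
        intro k hk
        rw [mem_Icc] at hk
        have h4 : (2 : ℝ) ≤ k := by exact_mod_cast hk.1
        constructor
        · rw [sub_nonneg, div_le_one (by positivity)]
          nlinarith
        · have : 0 ≤ 1 / (k : ℝ) ^ 2 := by positivity
          linarith
      have h5 : ∏ k ∈ Icc 2 (y + 1) \ (PP y).image (fun p : ℕ => p - 1), (1 - 1 / (k : ℝ) ^ 2) ≤ 1 := by
        apply prod_le_one
        · intro k hk
          exact (hf2 k (Finset.mem_sdiff.1 hk).1).1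
        · intro k hk
          exact (hf2 k (Finset.mem_sdiff.1 hk).1).2
      have h6 : 0 ≤ ∏ k ∈ (PP y).image (fun p : ℕ => p - 1), (1 - 1 / (k : ℝ) ^ 2) := by
        apply prod_nonneg
        intro k hk
        exact (hf2 k (hsub hk)).1
      nlinarith
    refine le_trans ?_ (le_trans (fac_bound y) h2)
    have : (0 : ℝ) ≤ 1 / ((y : ℝ) + 1) := by positivity
    nlinarith
  obtain ⟨C2, hC2⟩ : ∃ C2, Tendsto (fun y : ℕ => ∏ p ∈ PP y, (1 - 1 / ((p : ℝ) - 1) ^ 2)) atTop (𝓝 C2) :=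
    ⟨_, tendsto_atTop_ciInf hanti ⟨1 / 2, by rintro x ⟨y, rfl⟩; exact hlow y⟩⟩
  have hC2pos : 0 < C2 := by
    have : (1 / 2 : ℝ) ≤ C2 := ge_of_tendsto' hC2 hlow
    linarith
  refine ⟨C2, hC2pos, hC2, ?_⟩
  have heg : 0 < eg := Real.exp_pos _
  have h3 := hC2.div h1 (by positivity)
  have h4 : C2 / (eg / 2) = 2 * C2 / eg := by field_simp
  rw [h4] at h3
  refine h3.congr' ?_
  filter_upwards [eventually_ge_atTop 2] with y hy
  have hlog : 0 < Real.log y := Real.log_pos (by exact_mod_cast (by omega : 1 < y))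
  have hp : 0 < ∏ p ∈ PP y, (1 + 1 / ((p : ℝ) - 1)) := by
    apply prod_pos
    intro p hp
    rw [mem_PP] at hp
    have h4 : (3 : ℝ) ≤ p := by exact_mod_cast hp.2.1
    have : 0 < (p : ℝ) - 1 := by linarith
    positivity
  have h5 : ∏ p ∈ PP y, (1 - 1 / ((p : ℝ) - 1) ^ 2) =
      (∏ p ∈ PP y, (1 + 1 / ((p : ℝ) - 1))) * ∏ p ∈ PP y, (1 - 1 / ((p : ℝ) - 1)) := by
    rw [← prod_mul_distrib]
    apply prod_congr rfl
    intro p _
    rw [← one_div_pow]
    ring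
  simp only [Pi.div_apply]
  rw [h5]
  field_simp

end Pool.Agent.V5helper51.LL
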