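import Mathlib
import Pool.Agent.N511.LL.B
import Pool.Agent.V5helper51.LL.Mer

/-! The Chinese remainder theorem for products of functions of quadratic symbols. -/

set_option autoImplicit false

namespace Pool.Agent.V5helper51.LL

open Finset Filter Topology
open Pool.Agent.N511.LL

lemma sum_crt {m n : ℕ} (hmn : Nat.Coprime m n) (hm : 0 < m) (hn : 0 < n) (F G : ℕ → ℝ)
    (hF : ∀ a, F (a % m) = F a) (hG : ∀ a, G (a % n) = G a) :
    ∑ d ∈ range (m * n), F d * G d = (∑ a ∈ range m, F a) * ∑ b ∈ range n, G b := by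
  rw [sum_mul_sum, ← sum_product']
  apply sum_nbij (fun d => (d % m, d % n))
  · intro d _
    rw [mem_product, mem_range, mem_range]
    exact ⟨Nat.mod_lt _ hm, Nat.mod_lt _ hn⟩
  · intro a ha b hb hab
    rw [mem_coe, mem_range] at ha hb
    simp only [Prod.mk.injEq] at hab
    have h1 : a ≡ b [MOD m * n] := (Nat.modEq_and_modEq_iff_modEq_mul hmn).1 ⟨hab.1, hab.2⟩
    exact Nat.ModEq.eq_of_lt_of_lt h1 ha hb
  · intro x hx
    rw [mem_coe, mem_product, mem_range, mem_range] at hx
    obtain ⟨k, hk1, hk2⟩ := Nat.chineseRemainder hmn x.1 x.2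
    refine ⟨k % (m * n), ?_, ?_⟩
    · rw [mem_coe, mem_range]
      exact Nat.mod_lt _ (Nat.mul_pos hm hn)
    · have e1 : k % (m * n) % m = x.1 := by
        rw [Nat.mod_mul_right_mod]
        rw [hk1]
        exact Nat.mod_eq_of_lt hx.1
      have e2 : k % (m * n) % n = x.2 := by
        rw [Nat.mod_mul_left_mod]
        rw [hk2]
        exact Nat.mod_eq_of_lt hx.2
      simp only
      rw [e1, e2]
  · intro d _
    simp only
    rw [hF, hG]

lemma jac_mod (p : ℕ) (a : ℕ) : jacobiSym ((a % p : ℕ) : ℤ) p = jacobiSym (a : ℤ) p := by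
  push_cast
  rw [← jacobiSym.mod_left]

theorem cr0 : CR0 := by
  intro S
  induction S using Finset.induction_on with
  | empty => intro _ f; simp
  | insert q S hq ih =>
    intro hS f
    have hqp : q.Prime := hS q (mem_insert_self _ _)
    have hSp : ∀ p ∈ S, p.Prime := fun p hp => hS p (mem_insert_of_mem hp)
    rw [prod_insert hq, prod_insert hq, ← ih hSp f]
    have hco : Nat.Coprime q (∏ p ∈ S, p) := by
      apply Nat.Coprime.prod_right
      intro p hp
      apply (Nat.coprime_primes hqp (hSp p hp)).2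
      rintro rfl
      exact hq hp
    have hpos : 0 < ∏ p ∈ S, p := prod_pos (fun p hp => (hSp p hp).pos)
    rw [← sum_crt hco hqp.pos hpos (fun d => f q (jacobiSym (d : ℤ) q)) (fun d => ∏ p ∈ S, f p (jacobiSym (d : ℤ) p))]
    · apply sum_congr rfl
      intro d _
      rw [prod_insert hq]
    · intro a
      rw [jac_mod]
    · intro a
      apply prod_congr rfl
      intro p hp
      have h1 : jacobiSym ((a % (∏ p ∈ S, p) : ℕ) : ℤ) p = jacobiSym (a : ℤ) p := by
        rw [← jac_mod p (a % (∏ p ∈ S, p)), Nat.mod_mod_of_dvd _ (dvd_prod_of_mem _ hp), jac_mod]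
      rw [h1]

/-- the mean value of `g (r | p)` -/
noncomputable def av (g : ℤ → ℝ) (p : ℕ) : ℝ := (g 0 + ((p : ℝ) - 1) / 2 * (g 1 + g (-1))) / p

lemma sum_jac {p : ℕ} (hp : p.Prime) (hp2 : p ≠ 2) (g : ℤ → ℝ) :
    ∑ r ∈ range p, g (jacobiSym (r : ℤ) p) = p * av g p := by
  have hp0 : (p : ℝ) ≠ 0 := by exact_mod_cast hp.ne_zero
  have h1 : ∑ r ∈ range p, (jacobiSym (r : ℤ) p : ℝ) = 0 := by
    have h2 := Baux.sum_period hp hp2 (d := 1) (by
      intro h
      have h3 : p ∣ 1 := by exact_mod_cast h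
      exact hp.one_lt.ne' (Nat.dvd_one.1 h3)) 0
    have h3 : ∑ r ∈ range p, jacobiSym (r : ℤ) p = 0 := by
      rw [← h2]
      apply sum_congr rfl
      intro r _
      rw [zero_add, one_mul]
    exact_mod_cast h3
  have h2 : ∑ r ∈ range p, (jacobiSym (r : ℤ) p : ℝ) ^ 2 = (p : ℝ) - 1 := by
    have h3 : ∀ r ∈ range p, (jacobiSym (r : ℤ) p : ℝ) ^ 2 = 1 - if r = 0 then 1 else 0 := by
      intro r hr
      rw [mem_range] at hr
      haveI : Fact p.Prime := ⟨hp⟩
      split_ifs with h
      · rw [h]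
        have : jacobiSym ((0 : ℕ) : ℤ) p = 0 := by
          rw [Nat.cast_zero]
          exact jacobiSym.zero_left hp.one_lt
        rw [this]
        norm_num
      · have hco : Nat.Coprime r p := by
          rw [Nat.coprime_comm, hp.coprime_iff_not_dvd]
          intro hd
          exact absurd (Nat.le_of_dvd (by omega) hd) (by omega)
        have h4 : (jacobiSym (r : ℤ) p) ^ 2 = 1 := by
          apply jacobiSym.sq_one
          rw [Int.gcd_natCast_natCast]
          exact hco
        have h5 : (jacobiSym (r : ℤ) p : ℝ) ^ 2 = 1 := by exact_mod_cast h4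
        rw [h5]
        norm_num
    rw [sum_congr rfl h3, sum_sub_distrib]
    simp [hp.pos]
  have h3 : ∀ r ∈ range p, g (jacobiSym (r : ℤ) p) = g 0 + (g 1 - g (-1)) / 2 * (jacobiSym (r : ℤ) p : ℝ) +
      ((g 1 + g (-1)) / 2 - g 0) * (jacobiSym (r : ℤ) p : ℝ) ^ 2 := by
    intro r _
    rcases jacobiSym.trichotomy (r : ℤ) p with h | h | h
    · rw [h]; push_cast; ring
    · rw [h]; push_cast; ring
    · rw [h]; push_cast; ring
  rw [sum_congr rfl h3, sum_add_distrib, sum_add_distrib, ← mul_sum, ← mul_sum, h1, h2]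
  unfold av
  rw [sum_const, card_range, nsmul_eq_mul]
  field_simp
  ring

lemma exp_prod (y : ℕ) (f : ℕ → ℤ → ℝ) :
    ∑ d ∈ range (Q y), ∏ p ∈ PP y, f p (jacobiSym (d : ℤ) p) = Q y * ∏ p ∈ PP y, av (f p) p := by
  have h := cr0 (PP y) (fun p hp => (mem_PP.1 hp).1) f
  unfold Q
  rw [h]
  push_cast
  rw [← prod_mul_distrib]
  apply prod_congr rfl
  intro p hp
  rw [mem_PP] at hp
  exact sum_jac hp.1 (by omega) (f p)

lemma Q_pos (y : ℕ) : 0 < Q y := by
  unfold Q
  exact prod_pos (fun p hp => (mem_PP.1 hp).1.pos)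

end Pool.Agent.V5helper51.LL
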