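import Mathlib
import Pool.Agent.V5helper51.LL.Crt

/-! The weights for the two tails. -/

set_option autoImplicit false

namespace Pool.Agent.V5helper51.LL

open Finset Filter Topology
open Pool.Agent.N511.LL

/-- a system of local factors with the largest value at `e` -/
structure Wt (w : ℕ → ℤ → ℝ) (e : ℤ) : Prop where
  he : e = 1 ∨ e = -1
  pos : ∀ p : ℕ, 3 ≤ p → ∀ χ : ℤ, (χ = 0 ∨ χ = 1 ∨ χ = -1) → 0 < w p χ
  le : ∀ p : ℕ, 3 ≤ p → ∀ χ : ℤ, (χ = 0 ∨ χ = 1 ∨ χ = -1) → w p χ ≤ w p e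
  one : ∀ p : ℕ, 3 ≤ p → 1 ≤ w p e
  mom : ∀ p : ℕ, 3 ≤ p → ∀ s : ℕ, 1 ≤ s → av (fun χ => w p χ ^ s) p ≤ Real.exp (4 * s ^ 2 / ((p : ℝ) - 1) ^ 2)
  inv : ∀ p : ℕ, 3 ≤ p → av (fun χ => (w p χ)⁻¹) p ≤ Real.exp (4 / ((p : ℝ) - 1) ^ 2)

/-- the local factors of `T` -/
noncomputable def w1 (p : ℕ) (χ : ℤ) : ℝ := 1 - (χ : ℝ) / ((p : ℝ) - 1)

/-- the local factors of `1 / T` -/
noncomputable def w2 (p : ℕ) (χ : ℤ) : ℝ := (1 - (χ : ℝ) / ((p : ℝ) - 1))⁻¹

lemma av_le {g : ℤ → ℝ} {p : ℕ} {B : ℝ} (hp : 3 ≤ p) (h0 : g 0 ≤ B) (h1 : (g 1 + g (-1)) / 2 ≤ B) :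
    av g p ≤ B := by
  have h3 : (3 : ℝ) ≤ p := by exact_mod_cast hp
  unfold av
  rw [div_le_iff₀ (by linarith)]
  have h4 : ((p : ℝ) - 1) / 2 * (g 1 + g (-1)) = ((p : ℝ) - 1) * ((g 1 + g (-1)) / 2) := by ring
  rw [h4]
  have h5 : ((p : ℝ) - 1) * ((g 1 + g (-1)) / 2) ≤ ((p : ℝ) - 1) * B :=
    mul_le_mul_of_nonneg_left h1 (by linarith)
  linarith

lemma x_facts {p : ℕ} (hp : 3 ≤ p) : 0 < 1 / ((p : ℝ) - 1) ∧ 1 / ((p : ℝ) - 1) ≤ 1 / 2 := by
  have h3 : (3 : ℝ) ≤ p := by exact_mod_cast hp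
  constructor
  · have : 0 < (p : ℝ) - 1 := by linarith
    positivity
  · exact one_div_le_one_div_of_le (by norm_num) (by linarith)

/-- `1 - x ≥ exp (- x - x²)` for `0 ≤ x ≤ 1/2` -/
lemma one_sub_ge {x : ℝ} (h0 : 0 ≤ x) (h1 : x ≤ 1 / 2) : Real.exp (-x - x ^ 2) ≤ 1 - x := by
  have hx : 0 < 1 - x := by linarith
  have h2 := Real.quadratic_le_exp_of_nonneg (show 0 ≤ x + x ^ 2 by positivity)
  have h3 : 1 ≤ (1 - x) * (1 + (x + x ^ 2) + (x + x ^ 2) ^ 2 / 2) := by
    have e1 : (1 - x) * (1 + (x + x ^ 2) + (x + x ^ 2) ^ 2 / 2) =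
        1 + x ^ 2 * ((1 - x - x ^ 2 - x ^ 3) / 2) := by ring
    rw [e1]
    have h4 : 0 ≤ 1 - x - x ^ 2 - x ^ 3 := by
      have e2 : x ^ 2 ≤ 1 / 4 := by nlinarith
      have e3 : x ^ 3 ≤ 1 / 8 := by
        have : x ^ 3 = x ^ 2 * x := by ring
        rw [this]
        nlinarith [sq_nonneg x]
      linarith
    have h5 : 0 ≤ x ^ 2 * ((1 - x - x ^ 2 - x ^ 3) / 2) := by positivity
    linarith
  have h6 : 1 ≤ (1 - x) * Real.exp (x + x ^ 2) := h3.trans (mul_le_mul_of_nonneg_left h2 hx.le)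
  have e : -x - x ^ 2 = -(x + x ^ 2) := by ring
  rw [e, Real.exp_neg, inv_le_iff_one_le_mul₀ (Real.exp_pos _)]
  exact h6

/-- `1 + x ≥ exp (x - x²)` for `0 ≤ x ≤ 1/2` -/
lemma one_add_ge {x : ℝ} (h0 : 0 ≤ x) : Real.exp (x - x ^ 2) ≤ 1 + x := by
  have hx : 0 < 1 + x := by linarith
  rw [← Real.le_log_iff_exp_le hx]
  have h1 := Real.one_sub_inv_le_log_of_pos hx
  have h2 : x - x ^ 2 ≤ 1 - (1 + x)⁻¹ := by
    have h3 : 1 - (1 + x)⁻¹ = x / (1 + x) := by field_simp; ring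
    rw [h3, le_div_iff₀ hx]
    nlinarith [mul_nonneg h0 (sq_nonneg x), sq_nonneg x]
  linarith

theorem wt1 : Wt w1 (-1) := by
  refine ⟨Or.inr rfl, ?_, ?_, ?_, ?_, ?_⟩
  · intro p hp χ hχ
    obtain ⟨h1, h2⟩ := x_facts hp
    unfold w1
    rcases hχ with rfl | rfl | rfl
    · norm_num
    · push_cast; linarith
    · push_cast
      have : (-1 : ℝ) / ((p : ℝ) - 1) = -(1 / ((p : ℝ) - 1)) := by ring
      rw [this]; linarith
  · intro p hp χ hχ
    obtain ⟨h1, h2⟩ := x_facts hp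
    unfold w1
    have e : (((-1 : ℤ)) : ℝ) / ((p : ℝ) - 1) = -(1 / ((p : ℝ) - 1)) := by push_cast; ring
    rw [e]
    rcases hχ with rfl | rfl | rfl
    · push_cast; rw [zero_div]; linarith
    · push_cast; linarith
    · rw [e]
  · intro p hp
    obtain ⟨h1, h2⟩ := x_facts hp
    unfold w1
    have e : (((-1 : ℤ)) : ℝ) / ((p : ℝ) - 1) = -(1 / ((p : ℝ) - 1)) := by push_cast; ring
    rw [e]; linarith
  · intro p hp s hs
    obtain ⟨h1, h2⟩ := x_facts hp
    have hs1 : (1 : ℝ) ≤ s := by exact_mod_cast hs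
    have hpr : 0 < (p : ℝ) - 1 := by have : (3 : ℝ) ≤ p := by exact_mod_cast hp
                                     linarith
    apply av_le hp
    · unfold w1
      push_cast
      rw [zero_div, sub_zero, one_pow]
      exact Real.one_le_exp (by positivity)
    · unfold w1
      have e : (((-1 : ℤ)) : ℝ) / ((p : ℝ) - 1) = -(1 / ((p : ℝ) - 1)) := by push_cast; ring
      rw [e]
      push_cast
      obtain ⟨x, hx⟩ : ∃ x, x = 1 / ((p : ℝ) - 1) := ⟨_, rfl⟩
      rw [← hx] at h1 h2 ⊢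
      have h3 : (1 - x) ^ s ≤ Real.exp (-(s * x)) := by
        have h4 : 1 - x ≤ Real.exp (-x) := by
          have := Real.add_one_le_exp (-x)
          linarith
        calc (1 - x) ^ s ≤ Real.exp (-x) ^ s := pow_le_pow_left₀ (by linarith) h4 s
          _ = Real.exp (-(s * x)) := by rw [← Real.exp_nat_mul]; congr 1; ring
      have h5 : (1 - -x) ^ s ≤ Real.exp (s * x) := by
        have h4 : 1 - -x ≤ Real.exp x := by
          have := Real.add_one_le_exp x
          linarith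
        calc (1 - -x) ^ s ≤ Real.exp x ^ s := pow_le_pow_left₀ (by linarith) h4 s
          _ = Real.exp (s * x) := by rw [← Real.exp_nat_mul]
      have h6 : Real.cosh (s * x) ≤ Real.exp ((s * x) ^ 2 / 2) := Real.cosh_le_exp_half_sq _
      rw [Real.cosh_eq] at h6
      have h7 : Real.exp ((s * x) ^ 2 / 2) ≤ Real.exp (4 * (s : ℝ) ^ 2 / ((p : ℝ) - 1) ^ 2) := by
        apply Real.exp_le_exp.2
        have : 4 * (s : ℝ) ^ 2 / ((p : ℝ) - 1) ^ 2 = 4 * (s * x) ^ 2 := by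
          rw [hx]; field_simp
        rw [this]
        nlinarith [sq_nonneg ((s : ℝ) * x)]
      linarith
  · intro p hp
    obtain ⟨h1, h2⟩ := x_facts hp
    have hpr : 0 < (p : ℝ) - 1 := by have : (3 : ℝ) ≤ p := by exact_mod_cast hp
                                     linarith
    apply av_le hp
    · unfold w1
      push_cast
      rw [zero_div, sub_zero, inv_one]
      exact Real.one_le_exp (by positivity)
    · unfold w1
      have e : (((-1 : ℤ)) : ℝ) / ((p : ℝ) - 1) = -(1 / ((p : ℝ) - 1)) := by push_cast; ring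
      rw [e]
      push_cast
      obtain ⟨x, hx⟩ : ∃ x, x = 1 / ((p : ℝ) - 1) := ⟨_, rfl⟩
      rw [← hx] at h1 h2 ⊢
      have h3 : ((1 - x)⁻¹ + (1 - -x)⁻¹) / 2 = (1 - x ^ 2)⁻¹ := by
        have h4 : 1 - x ≠ 0 := by linarith
        have h5 : 1 - -x ≠ 0 := by linarith
        have h6 : 1 - x ^ 2 ≠ 0 := by nlinarith
        field_simp
        ring
      rw [h3]
      have h4 : Real.exp (-(x ^ 2) - (x ^ 2) ^ 2) ≤ 1 - x ^ 2 := one_sub_ge (sq_nonneg x) (by nlinarith)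
      have h5 : (1 - x ^ 2)⁻¹ ≤ (Real.exp (-(x ^ 2) - (x ^ 2) ^ 2))⁻¹ :=
        inv_anti₀ (Real.exp_pos _) h4
      refine h5.trans ?_
      rw [← Real.exp_neg]
      apply Real.exp_le_exp.2
      have : 4 / ((p : ℝ) - 1) ^ 2 = 4 * x ^ 2 := by
        rw [hx]; field_simp
      rw [this]
      have h8 : x ^ 2 ≤ 1 / 4 := by nlinarith
      nlinarith [sq_nonneg x, sq_nonneg (x ^ 2)]

theorem wt2 : Wt w2 1 := by
  refine ⟨Or.inl rfl, ?_, ?_, ?_, ?_, ?_⟩
  · intro p hp χ hχ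
    exact inv_pos.2 (wt1.pos p hp χ hχ)
  · intro p hp χ hχ
    unfold w2
    obtain ⟨h1, h2⟩ := x_facts hp
    apply inv_anti₀
    · push_cast; linarith
    · have hpr : 0 < (p : ℝ) - 1 := by have : (3 : ℝ) ≤ p := by exact_mod_cast hp
                                       linarith
      have : (χ : ℝ) / ((p : ℝ) - 1) ≤ ((1 : ℤ) : ℝ) / ((p : ℝ) - 1) := by
        apply div_le_div_of_nonneg_right _ hpr.le
        rcases hχ with rfl | rfl | rfl <;> norm_num
      linarith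
  · intro p hp
    unfold w2
    obtain ⟨h1, h2⟩ := x_facts hp
    apply (one_le_inv₀ _).2
    · push_cast; linarith
    · push_cast; linarith
  · intro p hp s hs
    obtain ⟨h1, h2⟩ := x_facts hp
    have hs1 : (1 : ℝ) ≤ s := by exact_mod_cast hs
    have hpr : 0 < (p : ℝ) - 1 := by have : (3 : ℝ) ≤ p := by exact_mod_cast hp
                                     linarith
    apply av_le hp
    · unfold w2
      push_cast
      rw [zero_div, sub_zero, inv_one, one_pow]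
      exact Real.one_le_exp (by positivity)
    · unfold w2
      have e : (((-1 : ℤ)) : ℝ) / ((p : ℝ) - 1) = -(1 / ((p : ℝ) - 1)) := by push_cast; ring
      rw [e]
      push_cast
      obtain ⟨x, hx⟩ : ∃ x, x = 1 / ((p : ℝ) - 1) := ⟨_, rfl⟩
      rw [← hx] at h1 h2 ⊢
      have h3 : ((1 - x)⁻¹) ^ s ≤ Real.exp (s * x ^ 2) * Real.exp (s * x) := by
        have h4 : (1 - x)⁻¹ ≤ Real.exp (x + x ^ 2) := by
          have h5 := inv_anti₀ (Real.exp_pos _) (one_sub_ge h1.le h2)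
          refine h5.trans (le_of_eq ?_)
          rw [← Real.exp_neg]; congr 1; ring
        calc ((1 - x)⁻¹) ^ s ≤ Real.exp (x + x ^ 2) ^ s :=
              pow_le_pow_left₀ (inv_nonneg.2 (by linarith)) h4 s
          _ = Real.exp (s * x ^ 2) * Real.exp (s * x) := by
              rw [← Real.exp_nat_mul, ← Real.exp_add]; congr 1; ring
      have h5 : ((1 - -x)⁻¹) ^ s ≤ Real.exp (s * x ^ 2) * Real.exp (-(s * x)) := by
        have h4 : (1 - -x)⁻¹ ≤ Real.exp (-x + x ^ 2) := by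
          have h5 := inv_anti₀ (Real.exp_pos _) (one_add_ge h1.le)
          have h6 : (1 - -x)⁻¹ = (1 + x)⁻¹ := by rw [sub_neg_eq_add]
          rw [h6]
          refine h5.trans (le_of_eq ?_)
          rw [← Real.exp_neg]; congr 1; ring
        calc ((1 - -x)⁻¹) ^ s ≤ Real.exp (-x + x ^ 2) ^ s :=
              pow_le_pow_left₀ (inv_nonneg.2 (by linarith)) h4 s
          _ = Real.exp (s * x ^ 2) * Real.exp (-(s * x)) := by
              rw [← Real.exp_nat_mul, ← Real.exp_add]; congr 1; ring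
      have h6 : Real.cosh (s * x) ≤ Real.exp ((s * x) ^ 2 / 2) := Real.cosh_le_exp_half_sq _
      rw [Real.cosh_eq] at h6
      have h8 : Real.exp (s * x ^ 2) * ((Real.exp (s * x) + Real.exp (-(s * x))) / 2) ≤
          Real.exp (s * x ^ 2) * Real.exp ((s * x) ^ 2 / 2) := mul_le_mul_of_nonneg_left h6 (Real.exp_pos _).le
      have h7 : Real.exp (s * x ^ 2) * Real.exp ((s * x) ^ 2 / 2) ≤ Real.exp (4 * (s : ℝ) ^ 2 / ((p : ℝ) - 1) ^ 2) := by
        rw [← Real.exp_add]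
        apply Real.exp_le_exp.2
        have : 4 * (s : ℝ) ^ 2 / ((p : ℝ) - 1) ^ 2 = 4 * (s * x) ^ 2 := by
          rw [hx]; field_simp
        rw [this]
        have h9 : (s : ℝ) * x ^ 2 ≤ (s * x) ^ 2 := by
          have : ((s : ℝ) * x) ^ 2 = s * (s * x ^ 2) := by ring
          rw [this]
          have h10 : 0 ≤ (s : ℝ) * x ^ 2 := by positivity
          nlinarith
        nlinarith [sq_nonneg ((s : ℝ) * x)]
      linarith
  · intro p hp
    obtain ⟨h1, h2⟩ := x_facts hp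
    have hpr : 0 < (p : ℝ) - 1 := by have : (3 : ℝ) ≤ p := by exact_mod_cast hp
                                     linarith
    apply av_le hp
    · unfold w2
      push_cast
      rw [zero_div, sub_zero, inv_one, inv_one]
      exact Real.one_le_exp (by positivity)
    · unfold w2
      rw [inv_inv, inv_inv]
      have : (1 - (((1 : ℤ)) : ℝ) / ((p : ℝ) - 1) + (1 - (((-1 : ℤ)) : ℝ) / ((p : ℝ) - 1))) / 2 = 1 := by
        push_cast; ring
      rw [this]
      exact Real.one_le_exp (by positivity)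

end Pool.Agent.V5helper51.LL
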