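import Mathlib
import Pool.Agent.V5helper51.LL.Wt

/-! The two tails of products of local factors. -/

set_option autoImplicit false

namespace Pool.Agent.V5helper51.LL

open Finset Filter Topology
open Pool.Agent.N511.LL

/-- the product of the local factors -/
noncomputable def WP (w : ℕ → ℤ → ℝ) (y : ℕ) (d : ℤ) : ℝ := ∏ p ∈ PP y, w p (jacobiSym d p)

lemma jac_tri (d : ℤ) (p : ℕ) : jacobiSym d p = 0 ∨ jacobiSym d p = 1 ∨ jacobiSym d p = -1 :=
  jacobiSym.trichotomy d p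

lemma sum_sq {y z : ℕ} (hz : 1 ≤ z) (c : ℝ) (hc : 0 ≤ c) :
    ∑ p ∈ (PP y).filter (fun p => z < p), c / ((p : ℝ) - 1) ^ 2 ≤ 2 * c / z := by
  have h1 : ∑ p ∈ (PP y).filter (fun p => z < p), c / ((p : ℝ) - 1) ^ 2 ≤
      ∑ i ∈ Ioo (z - 1) (y + 1), c * ((i : ℝ) ^ 2)⁻¹ := by
    have h2 : ∑ p ∈ (PP y).filter (fun p => z < p), c / ((p : ℝ) - 1) ^ 2 =
        ∑ i ∈ ((PP y).filter (fun p => z < p)).image (fun p : ℕ => p - 1), c * ((i : ℝ) ^ 2)⁻¹ := by
      rw [sum_image]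
      · apply sum_congr rfl
        intro p hp
        rw [mem_filter, mem_PP] at hp
        have : ((p - 1 : ℕ) : ℝ) = (p : ℝ) - 1 := by
          rw [Nat.cast_sub (by omega)]
          simp
        rw [this]
        ring
      · intro a ha b hb hab
        rw [mem_coe, mem_filter, mem_PP] at ha hb
        simp only at hab
        omega
    rw [h2]
    apply sum_le_sum_of_subset_of_nonneg
    · intro i hi
      rw [mem_image] at hi
      obtain ⟨p, hp, rfl⟩ := hi
      rw [mem_filter, mem_PP] at hp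
      rw [mem_Ioo]
      omega
    · intro i _ _
      positivity
  refine h1.trans ?_
  rw [← mul_sum]
  have h3 := sum_Ioo_inv_sq_le (α := ℝ) (z - 1) (y + 1)
  have h4 : ((z - 1 : ℕ) : ℝ) + 1 = z := by
    rw [Nat.cast_sub hz]
    simp
  rw [h4] at h3
  calc c * ∑ i ∈ Ioo (z - 1) (y + 1), ((i : ℝ) ^ 2)⁻¹ ≤ c * (2 / z) := mul_le_mul_of_nonneg_left h3 hc
    _ = 2 * c / z := by ring

section

variable {w : ℕ → ℤ → ℝ} {e : ℤ}

lemma e_tri (hw : Wt w e) : e = 0 ∨ e = 1 ∨ e = -1 := Or.inr hw.he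

lemma WP_pos (hw : Wt w e) (y : ℕ) (d : ℤ) : 0 < WP w y d :=
  prod_pos (fun p hp => hw.pos p (mem_PP.1 hp).2.1 _ (jac_tri d p))

lemma av_pow_le (hw : Wt w e) {p : ℕ} (hp : 3 ≤ p) (s : ℕ) :
    av (fun χ => w p χ ^ s) p ≤ w p e ^ s := by
  apply av_le hp
  · exact pow_le_pow_left₀ (hw.pos p hp 0 (Or.inl rfl)).le (hw.le p hp 0 (Or.inl rfl)) s
  · have h1 := pow_le_pow_left₀ (hw.pos p hp 1 (Or.inr (Or.inl rfl))).le (hw.le p hp 1 (Or.inr (Or.inl rfl))) s
    have h2 := pow_le_pow_left₀ (hw.pos p hp (-1) (Or.inr (Or.inr rfl))).le (hw.le p hp (-1) (Or.inr (Or.inr rfl))) s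
    linarith

lemma av_nonneg {g : ℤ → ℝ} {p : ℕ} (hp : 3 ≤ p) (h0 : 0 ≤ g 0) (h1 : 0 ≤ g 1) (h2 : 0 ≤ g (-1)) : 0 ≤ av g p := by
  have h3 : (3 : ℝ) ≤ p := by exact_mod_cast hp
  unfold av
  apply div_nonneg _ (by linarith)
  have : 0 ≤ ((p : ℝ) - 1) / 2 * (g 1 + g (-1)) := mul_nonneg (by linarith) (by linarith)
  linarith

lemma moment (hw : Wt w e) (y : ℕ) {s z : ℕ} (hs : 1 ≤ s) (hz : 1 ≤ z) :
    ∑ d ∈ range (Q y), WP w y (d : ℤ) ^ s ≤
      Q y * ((∏ p ∈ PP z, w p e) ^ s * Real.exp (8 * s ^ 2 / z)) := by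
  have h1 : ∑ d ∈ range (Q y), WP w y (d : ℤ) ^ s =
      ∑ d ∈ range (Q y), ∏ p ∈ PP y, w p (jacobiSym (d : ℤ) p) ^ s := by
    apply sum_congr rfl
    intro d _
    unfold WP
    rw [← prod_pow]
  have h0 := exp_prod y (fun p χ => w p χ ^ s)
  rw [h1, h0]
  apply mul_le_mul_of_nonneg_left _ (Nat.cast_nonneg _)
  rw [← prod_filter_mul_prod_filter_not (PP y) (fun p => z < p), mul_comm]
  apply mul_le_mul
  · -- the small primes
    calc ∏ p ∈ (PP y).filter (fun p => ¬ z < p), av (fun χ => w p χ ^ s) p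
        ≤ ∏ p ∈ (PP y).filter (fun p => ¬ z < p), w p e ^ s := by
          apply Finset.prod_le_prod
          · intro p hp
            rw [mem_filter, mem_PP] at hp
            have hp3 := hp.1.2.1
            apply av_nonneg hp3
            · exact pow_nonneg (hw.pos p hp3 0 (Or.inl rfl)).le s
            · exact pow_nonneg (hw.pos p hp3 1 (Or.inr (Or.inl rfl))).le s
            · exact pow_nonneg (hw.pos p hp3 (-1) (Or.inr (Or.inr rfl))).le s
          · intro p hp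
            rw [mem_filter, mem_PP] at hp
            exact av_pow_le hw hp.1.2.1 s
      _ ≤ ∏ p ∈ PP z, w p e ^ s := by
          have hsub : (PP y).filter (fun p => ¬ z < p) ⊆ PP z := by
            intro p hp
            rw [mem_filter, mem_PP] at hp
            rw [mem_PP]
            exact ⟨hp.1.1, hp.1.2.1, by omega⟩
          rw [← prod_sdiff hsub]
          have h2 : 1 ≤ ∏ p ∈ PP z \ (PP y).filter (fun p => ¬ z < p), w p e ^ s := by
            refine Finset.prod_induction _ (fun x => (1 : ℝ) ≤ x)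
              (fun a b ha hb => one_le_mul_of_one_le_of_one_le ha hb) le_rfl ?_
            intro p hp
            rw [Finset.mem_sdiff, mem_PP] at hp
            exact one_le_pow₀ (hw.one p hp.1.2.1)
          have h3 : 0 ≤ ∏ p ∈ (PP y).filter (fun p => ¬ z < p), w p e ^ s := by
            apply prod_nonneg
            intro p hp
            rw [mem_filter, mem_PP] at hp
            exact pow_nonneg (le_trans zero_le_one (hw.one p hp.1.2.1)) s
          nlinarith
      _ = (∏ p ∈ PP z, w p e) ^ s := prod_pow _ _ _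
  · calc ∏ p ∈ (PP y).filter (fun p => z < p), av (fun χ => w p χ ^ s) p
        ≤ ∏ p ∈ (PP y).filter (fun p => z < p), Real.exp (4 * s ^ 2 / ((p : ℝ) - 1) ^ 2) := by
          apply Finset.prod_le_prod
          · intro p hp
            rw [mem_filter, mem_PP] at hp
            have hp3 := hp.1.2.1
            apply av_nonneg hp3
            · exact pow_nonneg (hw.pos p hp3 0 (Or.inl rfl)).le s
            · exact pow_nonneg (hw.pos p hp3 1 (Or.inr (Or.inl rfl))).le s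
            · exact pow_nonneg (hw.pos p hp3 (-1) (Or.inr (Or.inr rfl))).le s
          · intro p hp
            rw [mem_filter, mem_PP] at hp
            exact hw.mom p hp.1.2.1 s hs
      _ = Real.exp (∑ p ∈ (PP y).filter (fun p => z < p), 4 * s ^ 2 / ((p : ℝ) - 1) ^ 2) := by
          rw [Real.exp_sum]
      _ ≤ Real.exp (8 * s ^ 2 / z) := by
          apply Real.exp_le_exp.2
          refine (sum_sq hz (4 * (s : ℝ) ^ 2) (by positivity)).trans (le_of_eq ?_)
          ring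
  · apply prod_nonneg
    intro p hp
    rw [mem_filter, mem_PP] at hp
    have hp3 := hp.1.2.1
    apply av_nonneg hp3
    · exact pow_nonneg (hw.pos p hp3 0 (Or.inl rfl)).le s
    · exact pow_nonneg (hw.pos p hp3 1 (Or.inr (Or.inl rfl))).le s
    · exact pow_nonneg (hw.pos p hp3 (-1) (Or.inr (Or.inr rfl))).le s
  · apply pow_nonneg
    apply prod_nonneg
    intro p hp
    exact le_trans zero_le_one (hw.one p (mem_PP.1 hp).2.1)

open Classical in
lemma markov (hw : Wt w e) (y : ℕ) {s z : ℕ} (hs : 1 ≤ s) (hz : 1 ≤ z) {t : ℝ} (ht : 0 < t) :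
    (#((range (Q y)).filter (fun d : ℕ => t ≤ WP w y (d : ℤ))) : ℝ) ≤
      Q y * (((∏ p ∈ PP z, w p e) / t) ^ s * Real.exp (8 * s ^ 2 / z)) := by
  have h1 := moment hw y hs hz
  have h2 : (#((range (Q y)).filter (fun d : ℕ => t ≤ WP w y (d : ℤ))) : ℝ) * t ^ s ≤
      ∑ d ∈ range (Q y), WP w y (d : ℤ) ^ s := by
    calc _ = ∑ d ∈ (range (Q y)).filter (fun d : ℕ => t ≤ WP w y (d : ℤ)), t ^ s := by
          rw [sum_const, nsmul_eq_mul]
      _ ≤ ∑ d ∈ (range (Q y)).filter (fun d : ℕ => t ≤ WP w y (d : ℤ)), WP w y (d : ℤ) ^ s := by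
          apply sum_le_sum
          intro d hd
          rw [mem_filter] at hd
          exact pow_le_pow_left₀ ht.le hd.2 s
      _ ≤ _ := sum_le_sum_of_subset_of_nonneg (filter_subset _ _)
          (fun d _ _ => pow_nonneg (WP_pos hw y d).le s)
  have h3 := h2.trans h1
  have hts : 0 < t ^ s := pow_pos ht s
  rw [div_pow]
  have h4 : (Q y : ℝ) * ((∏ p ∈ PP z, w p e) ^ s / t ^ s * Real.exp (8 * s ^ 2 / z)) =
      (Q y * ((∏ p ∈ PP z, w p e) ^ s * Real.exp (8 * s ^ 2 / z))) / t ^ s := by ring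
  rw [h4, le_div_iff₀ hts]
  exact h3

open Classical in
theorem upper (hw : Wt w e) {κ : ℝ} (hκ : 0 < κ)
    (hM : Tendsto (fun y : ℕ => (∏ p ∈ PP y, w p e) / Real.log y) atTop (𝓝 κ)) (δ : ℝ) (hδ : 0 < δ) :
    ∃ t0 : ℝ, ∀ t : ℝ, t0 ≤ t → ∀ y : ℕ,
      (#((range (Q y)).filter (fun d : ℕ => t ≤ WP w y (d : ℤ))) : ℝ) ≤
        Q y * Real.exp (-Real.exp ((1 / κ - δ) * t)) := by
  obtain ⟨δ1, hδ1⟩ : ∃ x, x = min (1 / 4) (κ * δ / 2) := ⟨_, rfl⟩
  have hδ10 : 0 < δ1 := by rw [hδ1]; positivity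
  have hδ14 : δ1 ≤ 1 / 4 := by rw [hδ1]; exact min_le_left _ _
  have hδ1κ : δ1 ≤ κ * δ / 2 := by rw [hδ1]; exact min_le_right _ _
  obtain ⟨η, hη⟩ : ∃ x, x = δ1 / 8 := ⟨_, rfl⟩
  have hη0 : 0 < η := by rw [hη]; positivity
  have hηδ : (1 + η) ^ 2 * (1 - δ1) ≤ 1 - δ1 / 2 := by
    rw [hη]
    have e1 : (1 + δ1 / 8) ^ 2 * (1 - δ1) = 1 - 3 / 4 * δ1 - 15 / 64 * δ1 ^ 2 - δ1 ^ 3 / 64 := by ring
    rw [e1]
    have e2 : 0 ≤ δ1 ^ 2 := by positivity
    have e3 : 0 ≤ δ1 ^ 3 := by positivity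
    linarith
  obtain ⟨K, hK⟩ : ∃ K : ℕ, K = ⌈32 / δ1⌉₊ := ⟨_, rfl⟩
  have hK1 : 32 / δ1 ≤ K := by rw [hK]; exact Nat.le_ceil _
  have hK0 : (0 : ℝ) < K := lt_of_lt_of_le (by positivity) hK1
  have hK0n : 0 < K := by exact_mod_cast hK0
  have hK1' : 1 ≤ K := hK0n
  have hKr : (1 : ℝ) ≤ K := by exact_mod_cast hK1'
  -- Mertens
  have hev : ∀ᶠ z : ℕ in atTop, (∏ p ∈ PP z, w p e) ≤ κ * (1 + η) * Real.log z := by
    have h1 := hM.eventually (gt_mem_nhds (show κ < κ * (1 + η) by nlinarith))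
    filter_upwards [h1, eventually_ge_atTop 2] with z hz hz2
    have hlog : 0 < Real.log z := Real.log_pos (by exact_mod_cast (by omega : 1 < z))
    have := (div_lt_iff₀ hlog).1 hz
    exact this.le
  obtain ⟨z0, hz0⟩ := eventually_atTop.1 hev
  -- conditions on `t`
  have c1 : ∀ᶠ t : ℝ in atTop, Real.log K ≤ η * ((1 - δ1) * t / κ) := by
    have : Tendsto (fun t : ℝ => η * ((1 - δ1) * t / κ)) atTop atTop := by
      have h2 : (fun t : ℝ => η * ((1 - δ1) * t / κ)) = fun t => (η * (1 - δ1) / κ) * t := by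
        funext t; ring
      rw [h2]
      apply Tendsto.const_mul_atTop _ tendsto_id
      have : 0 < 1 - δ1 := by linarith
      positivity
    exact this.eventually_ge_atTop _
  have c2 : ∀ᶠ t : ℝ in atTop, ((z0 : ℝ) + 2) ≤ Real.exp ((1 - δ1) * t / κ) := by
    have : Tendsto (fun t : ℝ => Real.exp ((1 - δ1) * t / κ)) atTop atTop := by
      apply Real.tendsto_exp_atTop.comp
      have h2 : (fun t : ℝ => (1 - δ1) * t / κ) = fun t => ((1 - δ1) / κ) * t := by
        funext t; ring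
      rw [h2]
      apply Tendsto.const_mul_atTop _ tendsto_id
      have : 0 < 1 - δ1 := by linarith
      positivity
    exact this.eventually_ge_atTop _
  have c3 : ∀ᶠ t : ℝ in atTop, 8 / δ1 ≤ Real.exp (δ / 2 * t) := by
    have : Tendsto (fun t : ℝ => Real.exp (δ / 2 * t)) atTop atTop := by
      apply Real.tendsto_exp_atTop.comp
      exact Tendsto.const_mul_atTop (by positivity) tendsto_id
    exact this.eventually_ge_atTop _
  obtain ⟨t0, ht0⟩ := eventually_atTop.1 (c1.and (c2.and (c3.and (eventually_ge_atTop (1 : ℝ)))))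
  refine ⟨t0, fun t ht y => ?_⟩
  obtain ⟨d1, d2, d3, d4⟩ := ht0 t ht
  have htpos : 0 < t := by linarith
  obtain ⟨E, hE⟩ : ∃ E, E = Real.exp ((1 - δ1) * t / κ) := ⟨_, rfl⟩
  rw [← hE] at d2
  obtain ⟨s, hs⟩ : ∃ s : ℕ, s = ⌊E⌋₊ := ⟨_, rfl⟩
  have hE0 : 0 < E := by rw [hE]; exact Real.exp_pos _
  have hE2 : 2 ≤ E := by linarith [(Nat.cast_nonneg z0 : (0 : ℝ) ≤ z0)]
  have hsE : (s : ℝ) ≤ E := by rw [hs]; exact Nat.floor_le hE0.le
  have hsE' : E < s + 1 := by rw [hs]; exact Nat.lt_floor_add_one E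
  have hs1r : (1 : ℝ) ≤ s := by linarith
  have hs1 : 1 ≤ s := by exact_mod_cast hs1r
  have hsz : z0 ≤ K * s := by
    have h1 : (z0 : ℝ) ≤ s := by linarith
    have h2 : z0 ≤ s := by exact_mod_cast h1
    calc z0 ≤ s := h2
      _ ≤ K * s := Nat.le_mul_of_pos_left s hK0n
  have hKs1 : 1 ≤ K * s := Nat.mul_pos hK0n hs1
  have hmk := markov hw y hs1 hKs1 htpos
  refine hmk.trans ?_
  apply mul_le_mul_of_nonneg_left _ (Nat.cast_nonneg _)
  have hprod0 : 0 ≤ ∏ p ∈ PP (K * s), w p e := by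
    apply prod_nonneg
    intro p hp
    exact le_trans zero_le_one (hw.one p (mem_PP.1 hp).2.1)
  have hMt : (∏ p ∈ PP (K * s), w p e) / t ≤ 1 - δ1 / 2 := by
    rw [div_le_iff₀ htpos]
    have h1 := hz0 (K * s) hsz
    have h2 : Real.log ((K * s : ℕ) : ℝ) ≤ (1 + η) * ((1 - δ1) * t / κ) := by
      push_cast
      rw [Real.log_mul (by positivity) (by positivity)]
      have h3 : Real.log s ≤ (1 - δ1) * t / κ := by
        calc Real.log s ≤ Real.log E := Real.log_le_log (by linarith) hsE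
          _ = _ := by rw [hE, Real.log_exp]
      linarith
    calc (∏ p ∈ PP (K * s), w p e) ≤ κ * (1 + η) * Real.log ((K * s : ℕ) : ℝ) := h1
      _ ≤ κ * (1 + η) * ((1 + η) * ((1 - δ1) * t / κ)) := mul_le_mul_of_nonneg_left h2 (by positivity)
      _ = ((1 + η) ^ 2 * (1 - δ1)) * t := by field_simp
      _ ≤ (1 - δ1 / 2) * t := mul_le_mul_of_nonneg_right hηδ htpos.le
  have h5 : ((∏ p ∈ PP (K * s), w p e) / t) ^ s ≤ Real.exp (-(δ1 / 2) * s) := by
    calc _ ≤ (1 - δ1 / 2) ^ s := pow_le_pow_left₀ (div_nonneg hprod0 htpos.le) hMt s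
      _ ≤ (Real.exp (-(δ1 / 2))) ^ s := by
          apply pow_le_pow_left₀ (by linarith)
          have := Real.add_one_le_exp (-(δ1 / 2))
          linarith
      _ = Real.exp (-(δ1 / 2) * s) := by rw [← Real.exp_nat_mul]; congr 1; ring
  have h6 : Real.exp (8 * (s : ℝ) ^ 2 / ((K * s : ℕ) : ℝ)) ≤ Real.exp (δ1 / 4 * s) := by
    apply Real.exp_le_exp.2
    push_cast
    have h7 : 8 * (s : ℝ) ^ 2 / (K * s) = 8 / K * s := by
      field_simp
    rw [h7]
    apply mul_le_mul_of_nonneg_right _ (by linarith)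
    rw [div_le_iff₀ hK0]
    rw [div_le_iff₀ hδ10] at hK1
    linarith
  calc _ ≤ Real.exp (-(δ1 / 2) * s) * Real.exp (δ1 / 4 * s) := by
        apply mul_le_mul h5 h6 (Real.exp_pos _).le (Real.exp_pos _).le
    _ = Real.exp (-(δ1 / 4 * s)) := by rw [← Real.exp_add]; congr 1; ring
    _ ≤ _ := by
        apply Real.exp_le_exp.2
        apply neg_le_neg
        have h8 : E / 2 ≤ s := by linarith
        have h9 : Real.exp ((1 / κ - δ) * t) * Real.exp (δ / 2 * t) ≤ E := by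
          rw [hE, ← Real.exp_add]
          apply Real.exp_le_exp.2
          have h10 : δ1 / κ ≤ δ / 2 := by
            rw [div_le_iff₀ hκ]; linarith
          have h11 : (1 - δ1) * t / κ = (1 / κ - δ1 / κ) * t := by ring
          rw [h11]
          nlinarith
        have h12 : Real.exp ((1 / κ - δ) * t) * (8 / δ1) ≤ E :=
          le_trans (mul_le_mul_of_nonneg_left d3 (Real.exp_pos _).le) h9
        have h13 : Real.exp ((1 / κ - δ) * t) = δ1 / 8 * (Real.exp ((1 / κ - δ) * t) * (8 / δ1)) := by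
          field_simp
        rw [h13]
        calc δ1 / 8 * (Real.exp ((1 / κ - δ) * t) * (8 / δ1)) ≤ δ1 / 8 * E :=
              mul_le_mul_of_nonneg_left h12 (by positivity)
          _ = δ1 / 4 * (E / 2) := by ring
          _ ≤ δ1 / 4 * s := mul_le_mul_of_nonneg_left h8 (by positivity)

end

end Pool.Agent.V5helper51.LL
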