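import Mathlib
import Pool.Agent.V5helper51.LL.Tail

/-! The lower bounds of the two tails. -/

set_option autoImplicit false

namespace Pool.Agent.V5helper51.LL

open Finset Filter Topology
open Pool.Agent.N511.LL

section

variable {w : ℕ → ℤ → ℝ} {e : ℤ}

open Classical in
lemma core_lower (hw : Wt w e) {y Y : ℕ} (hY : 1 ≤ Y) (hYy : Y ≤ y) {t a : ℝ} (ht : 0 < t) (ha : 0 < a)
    (hM : (1 + a) * t ≤ ∏ p ∈ PP Y, w p e) :
    (Q y : ℝ) * ((1 / 3 : ℝ) ^ Y * (1 - Real.exp (8 / Y) / (1 + a))) ≤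
      #((range (Q y)).filter (fun d : ℕ => t < WP w y (d : ℤ))) ∨ 1 < Real.exp (8 / Y) / (1 + a) := by
  rcases lt_or_ge 1 (Real.exp (8 / Y) / (1 + a)) with hcase | hcase
  · exact Or.inr hcase
  left
  have hQ : (0 : ℝ) < Q y := by exact_mod_cast Q_pos y
  obtain ⟨A, hA⟩ : ∃ A, A = (range (Q y)).filter (fun d : ℕ => ∀ p ∈ PP Y, jacobiSym (d : ℤ) p = e) := ⟨_, rfl⟩
  have hsub : PP Y ⊆ PP y := by
    intro p hp
    rw [mem_PP] at hp ⊢
    exact ⟨hp.1, hp.2.1, hp.2.2.trans hYy⟩
  -- the indicator function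
  have hind : ∀ d : ℕ, (∏ p ∈ PP Y, (if jacobiSym (d : ℤ) p = e then (1 : ℝ) else 0)) =
      if (∀ p ∈ PP Y, jacobiSym (d : ℤ) p = e) then 1 else 0 := by
    intro d
    split_ifs with h
    · apply prod_eq_one
      intro p hp
      rw [if_pos (h p hp)]
    · push Not at h
      obtain ⟨p, hp, hpe⟩ := h
      exact prod_eq_zero hp (if_neg hpe)
  have hav1 : ∀ p : ℕ, 3 ≤ p → av (fun χ => if χ = e then (1 : ℝ) else 0) p = ((p : ℝ) - 1) / (2 * p) := by
    intro p hp
    have hp0 : (p : ℝ) ≠ 0 := by positivity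
    unfold av
    rcases hw.he with rfl | rfl
    · norm_num
      field_simp
    · norm_num
      field_simp
  have hprodsplit : ∀ f g : ℕ → ℝ, ∏ p ∈ PP y, (if p ≤ Y then f p else g p) =
      (∏ p ∈ PP Y, f p) * ∏ p ∈ PP y \ PP Y, g p := by
    intro f g
    rw [← prod_sdiff hsub, mul_comm]
    congr 1
    · apply prod_congr rfl
      intro p hp
      rw [if_pos (mem_PP.1 hp).2.2]
    · apply prod_congr rfl
      intro p hp
      rw [Finset.mem_sdiff, mem_PP, mem_PP] at hp
      rw [if_neg]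
      intro h
      exact hp.2 ⟨hp.1.1, hp.1.2.1, h⟩
  -- the number of elements of `A`
  have hcard : (#A : ℝ) = Q y * ∏ p ∈ PP Y, (((p : ℝ) - 1) / (2 * p)) := by
    have h1 := exp_prod y (fun p χ => if p ≤ Y then (if χ = e then (1 : ℝ) else 0) else 1)
    have h2 : ∑ d ∈ range (Q y), ∏ p ∈ PP y, (if p ≤ Y then (if jacobiSym (d : ℤ) p = e then (1 : ℝ) else 0) else 1) =
        #A := by
      have h3 : ∀ d ∈ range (Q y), ∏ p ∈ PP y, (if p ≤ Y then (if jacobiSym (d : ℤ) p = e then (1 : ℝ) else 0) else 1) =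
          if (∀ p ∈ PP Y, jacobiSym (d : ℤ) p = e) then 1 else 0 := by
        intro d _
        rw [hprodsplit (fun p => if jacobiSym (d : ℤ) p = e then (1 : ℝ) else 0) (fun _ => 1), hind, prod_const_one,
          mul_one]
      rw [sum_congr rfl h3, sum_ite, sum_const, sum_const_zero, add_zero, nsmul_eq_mul, mul_one, hA]
    rw [h2] at h1
    rw [h1]
    congr 1
    have h4 : ∀ p ∈ PP y, av (fun χ => if p ≤ Y then (if χ = e then (1 : ℝ) else 0) else 1) p =
        if p ≤ Y then ((p : ℝ) - 1) / (2 * p) else 1 := by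
      intro p hp
      rw [mem_PP] at hp
      split_ifs with h
      · exact hav1 p hp.2.1
      · unfold av
        have hp0 : (p : ℝ) ≠ 0 := by
          have := hp.1.pos
          positivity
        field_simp
        ring
    rw [prod_congr rfl h4, hprodsplit, prod_const_one, mul_one]
  -- the mean value of the inverse over `A`
  have hinv : ∑ d ∈ A, (∏ p ∈ PP y \ PP Y, w p (jacobiSym (d : ℤ) p))⁻¹ ≤ #A * Real.exp (8 / Y) := by
    have h1 := exp_prod y (fun p χ => if p ≤ Y then (if χ = e then (1 : ℝ) else 0) else (w p χ)⁻¹)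
    have h2 : ∑ d ∈ range (Q y), ∏ p ∈ PP y, (if p ≤ Y then (if jacobiSym (d : ℤ) p = e then (1 : ℝ) else 0)
        else (w p (jacobiSym (d : ℤ) p))⁻¹) = ∑ d ∈ A, (∏ p ∈ PP y \ PP Y, w p (jacobiSym (d : ℤ) p))⁻¹ := by
      rw [hA, sum_filter]
      apply sum_congr rfl
      intro d _
      rw [hprodsplit (fun p => if jacobiSym (d : ℤ) p = e then (1 : ℝ) else 0)
        (fun p => (w p (jacobiSym (d : ℤ) p))⁻¹), hind, prod_inv_distrib]
      split_ifs
      · rw [one_mul]
      · rw [zero_mul]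
    rw [h2] at h1
    rw [h1, hcard]
    have h4 : ∀ p ∈ PP y, av (fun χ => if p ≤ Y then (if χ = e then (1 : ℝ) else 0) else (w p χ)⁻¹) p =
        if p ≤ Y then ((p : ℝ) - 1) / (2 * p) else av (fun χ => (w p χ)⁻¹) p := by
      intro p hp
      rw [mem_PP] at hp
      split_ifs with h
      · exact hav1 p hp.2.1
      · rfl
    rw [prod_congr rfl h4, hprodsplit, mul_assoc]
    apply mul_le_mul_of_nonneg_left _ hQ.le
    apply mul_le_mul_of_nonneg_left
    · calc ∏ p ∈ PP y \ PP Y, av (fun χ => (w p χ)⁻¹) p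
          ≤ ∏ p ∈ PP y \ PP Y, Real.exp (4 / ((p : ℝ) - 1) ^ 2) := by
            apply Finset.prod_le_prod
            · intro p hp
              rw [Finset.mem_sdiff, mem_PP] at hp
              have hp3 := hp.1.2.1
              apply av_nonneg hp3
              · exact inv_nonneg.2 (hw.pos p hp3 0 (Or.inl rfl)).le
              · exact inv_nonneg.2 (hw.pos p hp3 1 (Or.inr (Or.inl rfl))).le
              · exact inv_nonneg.2 (hw.pos p hp3 (-1) (Or.inr (Or.inr rfl))).le
            · intro p hp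
              rw [Finset.mem_sdiff, mem_PP] at hp
              exact hw.inv p hp.1.2.1
        _ = Real.exp (∑ p ∈ PP y \ PP Y, 4 / ((p : ℝ) - 1) ^ 2) := by rw [Real.exp_sum]
        _ ≤ Real.exp (8 / Y) := by
            apply Real.exp_le_exp.2
            have h5 : PP y \ PP Y = (PP y).filter (fun p => Y < p) := by
              ext p
              rw [Finset.mem_sdiff, mem_filter, mem_PP, mem_PP]
              constructor
              · rintro ⟨h1, h2⟩
                refine ⟨h1, ?_⟩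
                by_contra h3
                exact h2 ⟨h1.1, h1.2.1, by omega⟩
              · rintro ⟨h1, h2⟩
                exact ⟨h1, fun h3 => by omega⟩
            rw [h5]
            refine (sum_sq hY 4 (by norm_num)).trans (le_of_eq ?_)
            norm_num
    · apply prod_nonneg
      intro p hp
      rw [mem_PP] at hp
      have h3 : (3 : ℝ) ≤ p := by exact_mod_cast hp.2.1
      apply div_nonneg <;> linarith
  -- the exceptions
  have hbad : (#(A.filter (fun d : ℕ => ¬ t < WP w y (d : ℤ))) : ℝ) * (1 + a) ≤ #A * Real.exp (8 / Y) := by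
    calc _ = ∑ d ∈ A.filter (fun d : ℕ => ¬ t < WP w y (d : ℤ)), (1 + a) := by
          rw [sum_const, nsmul_eq_mul]
      _ ≤ ∑ d ∈ A.filter (fun d : ℕ => ¬ t < WP w y (d : ℤ)), (∏ p ∈ PP y \ PP Y, w p (jacobiSym (d : ℤ) p))⁻¹ := by
          apply sum_le_sum
          intro d hd
          rw [mem_filter, hA, mem_filter] at hd
          obtain ⟨⟨-, hdA⟩, hdt⟩ := hd
          rw [not_lt] at hdt
          have hR : 0 < ∏ p ∈ PP y \ PP Y, w p (jacobiSym (d : ℤ) p) := by
            apply prod_pos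
            intro p hp
            rw [Finset.mem_sdiff, mem_PP] at hp
            exact hw.pos p hp.1.2.1 _ (jac_tri _ p)
          have h1 : WP w y (d : ℤ) = (∏ p ∈ PP y \ PP Y, w p (jacobiSym (d : ℤ) p)) * ∏ p ∈ PP Y, w p e := by
            unfold WP
            rw [← prod_sdiff hsub]
            congr 1
            apply prod_congr rfl
            intro p hp
            rw [hdA p hp]
          rw [h1] at hdt
          rw [le_inv_comm₀ (by positivity) hR, ← one_div, le_div_iff₀ (by positivity)]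
          have h2 : (∏ p ∈ PP y \ PP Y, w p (jacobiSym (d : ℤ) p)) * ((1 + a) * t) ≤ t :=
            le_trans (mul_le_mul_of_nonneg_left hM hR.le) hdt
          have h3 : ((∏ p ∈ PP y \ PP Y, w p (jacobiSym (d : ℤ) p)) * (1 + a)) * t ≤ 1 * t := by linarith
          exact le_of_mul_le_mul_right h3 ht
      _ ≤ ∑ d ∈ A, (∏ p ∈ PP y \ PP Y, w p (jacobiSym (d : ℤ) p))⁻¹ := by
          apply sum_le_sum_of_subset_of_nonneg (filter_subset _ _)
          intro d _ _
          apply inv_nonneg.2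
          apply prod_nonneg
          intro p hp
          rw [Finset.mem_sdiff, mem_PP] at hp
          exact (hw.pos p hp.1.2.1 _ (jac_tri _ p)).le
      _ ≤ _ := hinv
  have hsplit : (#A : ℝ) = #(A.filter (fun d : ℕ => t < WP w y (d : ℤ))) +
      #(A.filter (fun d : ℕ => ¬ t < WP w y (d : ℤ))) := by
    have := card_filter_add_card_filter_not (s := A) (fun d : ℕ => t < WP w y (d : ℤ))
    exact_mod_cast this.symm
  have hAle : (#(A.filter (fun d : ℕ => t < WP w y (d : ℤ))) : ℝ) ≤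
      #((range (Q y)).filter (fun d : ℕ => t < WP w y (d : ℤ))) := by
    have : A.filter (fun d : ℕ => t < WP w y (d : ℤ)) ⊆ (range (Q y)).filter (fun d : ℕ => t < WP w y (d : ℤ)) := by
      intro d hd
      rw [mem_filter, hA, mem_filter] at hd
      rw [mem_filter]
      exact ⟨hd.1.1, hd.2⟩
    exact_mod_cast card_le_card this
  have h1a : 0 < 1 + a := by linarith
  have hbad2 : (#(A.filter (fun d : ℕ => ¬ t < WP w y (d : ℤ))) : ℝ) ≤ #A * (Real.exp (8 / Y) / (1 + a)) := by
    rw [← mul_div_assoc, le_div_iff₀ h1a]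
    exact hbad
  have hAlow : (Q y : ℝ) * (1 / 3 : ℝ) ^ Y ≤ #A := by
    rw [hcard]
    apply mul_le_mul_of_nonneg_left _ hQ.le
    have h1 : (1 / 3 : ℝ) ^ Y ≤ (1 / 3 : ℝ) ^ #(PP Y) := by
      apply pow_le_pow_of_le_one (by norm_num) (by norm_num)
      have h2 : PP Y ⊆ Icc 1 Y := by
        intro p hp
        rw [mem_PP] at hp
        rw [mem_Icc]
        omega
      have := card_le_card h2
      rw [Nat.card_Icc] at this
      omega
    refine h1.trans ?_
    rw [← prod_const]
    apply Finset.prod_le_prod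
    · intro p _; norm_num
    · intro p hp
      rw [mem_PP] at hp
      have h3 : (3 : ℝ) ≤ p := by exact_mod_cast hp.2.1
      rw [div_le_div_iff₀ (by norm_num) (by linarith)]
      linarith
  have h5 : 0 ≤ 1 - Real.exp (8 / Y) / (1 + a) := by linarith
  have h6 : (Q y : ℝ) * ((1 / 3 : ℝ) ^ Y * (1 - Real.exp (8 / Y) / (1 + a))) ≤
      #A * (1 - Real.exp (8 / Y) / (1 + a)) := by
    rw [← mul_assoc]
    exact mul_le_mul_of_nonneg_right hAlow h5
  linarith

open Classical in
theorem lower (hw : Wt w e) {κ : ℝ} (hκ : 0 < κ)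
    (hM : Tendsto (fun y : ℕ => (∏ p ∈ PP y, w p e) / Real.log y) atTop (𝓝 κ)) (δ : ℝ) (hδ : 0 < δ) :
    ∃ t0 : ℝ, ∀ t : ℝ, t0 ≤ t → ∃ y0 : ℕ, ∀ y : ℕ, y0 ≤ y →
      Q y * Real.exp (-Real.exp ((1 / κ + δ) * t)) ≤
        (#((range (Q y)).filter (fun d : ℕ => t < WP w y (d : ℤ))) : ℝ) := by
  obtain ⟨δ1, hδ1⟩ : ∃ x, x = min (1 / 4) (κ * δ / 2) := ⟨_, rfl⟩
  have hδ10 : 0 < δ1 := by rw [hδ1]; positivity
  have hδ14 : δ1 ≤ 1 / 4 := by rw [hδ1]; exact min_le_left _ _
  have hδ1κ : δ1 ≤ κ * δ / 2 := by rw [hδ1]; exact min_le_right _ _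
  have hev : ∀ᶠ z : ℕ in atTop, κ * (1 - δ1 / 4) * Real.log z ≤ (∏ p ∈ PP z, w p e) := by
    have h1 := hM.eventually (lt_mem_nhds (show κ * (1 - δ1 / 4) < κ by nlinarith))
    filter_upwards [h1, eventually_ge_atTop 2] with z hz hz2
    have hlog : 0 < Real.log z := Real.log_pos (by exact_mod_cast (by omega : 1 < z))
    have := (lt_div_iff₀ hlog).1 hz
    exact this.le
  obtain ⟨z0, hz0⟩ := eventually_atTop.1 hev
  -- the small term
  have hexp8 : ∀ᶠ x : ℝ in atTop, Real.exp (8 / x) ≤ 1 + δ1 / 8 := by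
    have h1 : Tendsto (fun x : ℝ => Real.exp (8 / x)) atTop (𝓝 (Real.exp 0)) :=
      (Real.continuous_exp.tendsto 0).comp (tendsto_const_nhds.div_atTop tendsto_id)
    rw [Real.exp_zero] at h1
    have h2 := h1.eventually (gt_mem_nhds (show (1 : ℝ) < 1 + δ1 / 8 by linarith))
    filter_upwards [h2] with x hx
    exact hx.le
  obtain ⟨x0, hx0⟩ := eventually_atTop.1 hexp8
  have c2 : ∀ᶠ t : ℝ in atTop, ((z0 : ℝ) + |x0| + 2) ≤ Real.exp ((1 + δ1) * t / κ) := by
    have : Tendsto (fun t : ℝ => Real.exp ((1 + δ1) * t / κ)) atTop atTop := by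
      apply Real.tendsto_exp_atTop.comp
      have h2 : (fun t : ℝ => (1 + δ1) * t / κ) = fun t => ((1 + δ1) / κ) * t := by
        funext t; ring
      rw [h2]
      exact Tendsto.const_mul_atTop (by positivity) tendsto_id
    exact this.eventually_ge_atTop _
  have c3 : ∀ᶠ t : ℝ in atTop, 4 + 16 / δ1 ≤ Real.exp (δ / 2 * t) := by
    have : Tendsto (fun t : ℝ => Real.exp (δ / 2 * t)) atTop atTop := by
      apply Real.tendsto_exp_atTop.comp
      exact Tendsto.const_mul_atTop (by positivity) tendsto_id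
    exact this.eventually_ge_atTop _
  obtain ⟨t0, ht0⟩ := eventually_atTop.1 (c2.and (c3.and (eventually_ge_atTop (1 : ℝ))))
  refine ⟨t0, fun t ht => ?_⟩
  obtain ⟨d2, d3, d4⟩ := ht0 t ht
  have htpos : 0 < t := by linarith
  obtain ⟨E, hE⟩ : ∃ E, E = Real.exp ((1 + δ1) * t / κ) := ⟨_, rfl⟩
  rw [← hE] at d2
  obtain ⟨Y, hY⟩ : ∃ Y : ℕ, Y = ⌈E⌉₊ := ⟨_, rfl⟩
  have hE0 : 0 < E := by rw [hE]; exact Real.exp_pos _
  have hEY : E ≤ Y := by rw [hY]; exact Nat.le_ceil _
  have hYE : (Y : ℝ) < E + 1 := by rw [hY]; exact Nat.ceil_lt_add_one hE0.le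
  have hx0' := le_abs_self x0
  have hx0n := abs_nonneg x0
  have hz0n : (0 : ℝ) ≤ z0 := Nat.cast_nonneg z0
  have hE2 : 2 ≤ E := by linarith
  have hY1 : 1 ≤ Y := by
    have : (1 : ℝ) ≤ Y := by linarith
    exact_mod_cast this
  refine ⟨Y, fun y hy => ?_⟩
  have hYz : z0 ≤ Y := by
    have : (z0 : ℝ) ≤ Y := by linarith
    exact_mod_cast this
  have hMY : (1 + δ1 / 2) * t ≤ ∏ p ∈ PP Y, w p e := by
    refine le_trans ?_ (hz0 Y hYz)
    have h2 : (1 + δ1) * t / κ ≤ Real.log Y := by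
      rw [Real.le_log_iff_exp_le (by linarith), ← hE]
      exact hEY
    calc (1 + δ1 / 2) * t ≤ ((1 - δ1 / 4) * (1 + δ1)) * t := by
          apply mul_le_mul_of_nonneg_right _ htpos.le
          nlinarith
      _ = κ * (1 - δ1 / 4) * ((1 + δ1) * t / κ) := by field_simp
      _ ≤ κ * (1 - δ1 / 4) * Real.log Y := by
          apply mul_le_mul_of_nonneg_left h2
          have : 0 < 1 - δ1 / 4 := by linarith
          positivity
  have h8 : Real.exp (8 / (Y : ℝ)) ≤ 1 + δ1 / 8 := hx0 Y (by linarith)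
  have h9 : Real.exp (8 / (Y : ℝ)) / (1 + δ1 / 2) ≤ 1 - δ1 / 4 := by
    rw [div_le_iff₀ (by linarith)]
    refine h8.trans ?_
    nlinarith
  rcases core_lower hw hY1 hy htpos (show 0 < δ1 / 2 by positivity) hMY with h | h
  · refine le_trans ?_ h
    apply mul_le_mul_of_nonneg_left _ (Nat.cast_nonneg _)
    have h10 : (1 / 3 : ℝ) ^ Y * (δ1 / 4) ≤ (1 / 3 : ℝ) ^ Y * (1 - Real.exp (8 / (Y : ℝ)) / (1 + δ1 / 2)) := by
      apply mul_le_mul_of_nonneg_left _ (by positivity)
      linarith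
    refine le_trans ?_ h10
    -- exp (- exp ..) ≤ 3^(-Y) δ1/4
    have h11 : Real.exp (-(2 * (Y : ℝ))) ≤ (1 / 3 : ℝ) ^ Y := by
      have h12 : Real.exp (-2) ≤ 1 / 3 := by
        have h13 := Real.add_one_le_exp (2 : ℝ)
        rw [Real.exp_neg, one_div]
        exact inv_anti₀ (by norm_num) (by linarith)
      calc Real.exp (-(2 * (Y : ℝ))) = Real.exp (-2) ^ Y := by
            rw [← Real.exp_nat_mul]; congr 1; ring
        _ ≤ _ := pow_le_pow_left₀ (Real.exp_pos _).le h12 Y
    have h14 : Real.exp (-(4 / δ1)) ≤ δ1 / 4 := by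
      rw [Real.exp_neg]
      have h15 := Real.add_one_le_exp (4 / δ1)
      have h16 : δ1 / 4 = (4 / δ1)⁻¹ := by rw [inv_div]
      rw [h16]
      exact inv_anti₀ (by positivity) (by linarith)
    calc Real.exp (-Real.exp ((1 / κ + δ) * t)) ≤ Real.exp (-(2 * (Y : ℝ)) + -(4 / δ1)) := by
          apply Real.exp_le_exp.2
          have h17 : E * Real.exp (δ / 2 * t) ≤ Real.exp ((1 / κ + δ) * t) := by
            rw [hE, ← Real.exp_add]
            apply Real.exp_le_exp.2
            have h10 : δ1 / κ ≤ δ / 2 := by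
              rw [div_le_iff₀ hκ]; linarith
            have h11 : (1 + δ1) * t / κ = (1 / κ + δ1 / κ) * t := by ring
            rw [h11]
            nlinarith
          have h18 : E * (4 + 16 / δ1) ≤ E * Real.exp (δ / 2 * t) := mul_le_mul_of_nonneg_left d3 hE0.le
          have h19 : 4 / δ1 ≤ E * (16 / δ1) := by
            have e1 : (16 : ℝ) / δ1 = 4 * (4 / δ1) := by ring
            rw [e1]
            have e2 : 0 < 4 / δ1 := by positivity
            nlinarith
          nlinarith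
      _ = Real.exp (-(2 * (Y : ℝ))) * Real.exp (-(4 / δ1)) := Real.exp_add _ _
      _ ≤ (1 / 3 : ℝ) ^ Y * (δ1 / 4) := mul_le_mul h11 h14 (Real.exp_pos _).le (by positivity)
  · exfalso
    linarith

end

end Pool.Agent.V5helper51.LL
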