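import Mathlib
import Pool.Agent.N511.LL.A0
import Pool.Agent.N511.LL.C0
import Pool.Agent.N511.LL.D0
import Pool.Agent.N511.LL.F0
import Pool.Agent.N511.LL.F1
import Pool.Agent.N511.LL.F2
import Pool.Agent.V5helper51.LL.TailL

/-! The limit distribution function and its tails. -/

set_option autoImplicit false

namespace Pool.Agent.V5helper51.LL

open Finset Filter Topology
open Pool.Agent.N511.LL

lemma T_eq1 (d : ℤ) (y : ℕ) : T d y = WP w1 y d := rfl

lemma T_pos' (d : ℤ) (y : ℕ) : 0 < T d y := by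
  rw [T_eq1]; exact WP_pos wt1 y d

lemma T_eq2 (d : ℤ) (y : ℕ) : WP w2 y d = (T d y)⁻¹ := by
  unfold T WP w2 loc
  rw [prod_inv_distrib]

lemma hk1 : Tendsto (fun y : ℕ => (∏ p ∈ PP y, w1 p (-1)) / Real.log y) atTop (𝓝 (eg / 2)) := by
  refine (m0).1.congr fun y => ?_
  congr 1
  apply prod_congr rfl
  intro p _
  unfold w1
  push_cast
  ring

lemma hk2 {C2 : ℝ} (hC2 : 0 < C2)
    (h : Tendsto (fun y : ℕ => Real.log y * ∏ p ∈ PP y, (1 - 1 / ((p : ℝ) - 1))) atTop (𝓝 (2 * C2 / eg))) :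
    Tendsto (fun y : ℕ => (∏ p ∈ PP y, w2 p 1) / Real.log y) atTop (𝓝 (eg / (2 * C2))) := by
  have heg : 0 < eg := Real.exp_pos _
  have h1 := h.inv₀ (by positivity)
  rw [inv_div] at h1
  refine h1.congr fun y => ?_
  rw [mul_inv, ← prod_inv_distrib, div_eq_mul_inv, mul_comm]
  congr 1
  apply prod_congr rfl
  intro p _
  unfold w2
  push_cast
  rfl

open Classical in
lemma one_sub_Gy (y : ℕ) (t : ℝ) :
    1 - Gy y t = (#((range (Q y)).filter (fun d : ℕ => t < T d y)) : ℝ) / Q y := by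
  have hQ : (0 : ℝ) < Q y := by exact_mod_cast Q_pos y
  unfold Gy
  have h1 := card_filter_add_card_filter_not (s := range (Q y)) (fun d : ℕ => T d y ≤ t)
  rw [card_range] at h1
  have h2 : (range (Q y)).filter (fun d : ℕ => ¬ T d y ≤ t) = (range (Q y)).filter (fun d : ℕ => t < T d y) := by
    apply filter_congr
    intro d _
    rw [not_le]
  rw [h2] at h1
  have h3 : ((#((range (Q y)).filter (fun d : ℕ => T d y ≤ t)) : ℝ)) +
      #((range (Q y)).filter (fun d : ℕ => t < T d y)) = Q y := by exact_mod_cast h1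
  rw [eq_div_iff hQ.ne', sub_mul, one_mul, div_mul_cancel₀ _ hQ.ne']
  linarith

theorem h1 : H1 := by
  classical
  intro δ hδ
  have heg : 0 < eg := Real.exp_pos _
  obtain ⟨t0, h⟩ := lower wt1 (show 0 < eg / 2 by positivity) hk1 δ hδ
  refine ⟨t0, fun t ht => ?_⟩
  obtain ⟨y0, h2⟩ := h t ht
  refine ⟨y0, fun y hy => ?_⟩
  have h3 := h2 y hy
  have hQ : (0 : ℝ) < Q y := by exact_mod_cast Q_pos y
  rw [one_sub_Gy, le_div_iff₀ hQ, mul_comm]
  rw [one_div_div] at h3
  exact h3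

theorem h2 : H2 := by
  classical
  intro δ hδ
  have heg : 0 < eg := Real.exp_pos _
  obtain ⟨t0, h⟩ := upper wt1 (show 0 < eg / 2 by positivity) hk1 δ hδ
  refine ⟨t0, fun t ht y => ?_⟩
  have h3 := h t ht y
  have hQ : (0 : ℝ) < Q y := by exact_mod_cast Q_pos y
  rw [one_sub_Gy, div_le_iff₀ hQ, mul_comm]
  rw [one_div_div] at h3
  refine le_trans ?_ h3
  rw [Nat.cast_le]
  apply card_le_card
  intro d hd
  rw [mem_filter] at hd ⊢
  exact ⟨hd.1, hd.2.le⟩

theorem h3 : H3 := by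
  classical
  intro C2 hC2 hlim δ hδ
  have heg : 0 < eg := Real.exp_pos _
  obtain ⟨t0, h⟩ := lower wt2 (show 0 < eg / (2 * C2) by positivity) (hk2 hC2 hlim) δ hδ
  refine ⟨max t0 1, fun t ht => ?_⟩
  obtain ⟨y0, h2⟩ := h t (le_trans (le_max_left _ _) ht)
  have ht1 : 0 < t := lt_of_lt_of_le one_pos (le_trans (le_max_right _ _) ht)
  refine ⟨y0, fun y hy => ?_⟩
  have h3 := h2 y hy
  have hQ : (0 : ℝ) < Q y := by exact_mod_cast Q_pos y
  unfold Gy
  rw [le_div_iff₀ hQ, mul_comm]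
  rw [one_div_div] at h3
  refine le_trans h3 ?_
  rw [Nat.cast_le]
  apply card_le_card
  intro d hd
  rw [mem_filter] at hd ⊢
  refine ⟨hd.1, ?_⟩
  rw [T_eq2] at hd
  rw [one_div]
  exact (le_inv_comm₀ (T_pos' _ _) ht1).2 hd.2.le

theorem h4 : H4 := by
  classical
  intro C2 hC2 hlim δ hδ
  have heg : 0 < eg := Real.exp_pos _
  obtain ⟨t0, h⟩ := upper wt2 (show 0 < eg / (2 * C2) by positivity) (hk2 hC2 hlim) δ hδ
  refine ⟨max t0 1, fun t ht y => ?_⟩
  have h3 := h t (le_trans (le_max_left _ _) ht) y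
  have ht1 : 0 < t := lt_of_lt_of_le one_pos (le_trans (le_max_right _ _) ht)
  have hQ : (0 : ℝ) < Q y := by exact_mod_cast Q_pos y
  unfold Gy
  rw [div_le_iff₀ hQ, mul_comm]
  rw [one_div_div] at h3
  refine le_trans ?_ h3
  rw [Nat.cast_le]
  apply card_le_card
  intro d hd
  rw [mem_filter] at hd ⊢
  refine ⟨hd.1, ?_⟩
  rw [T_eq2]
  rw [one_div] at hd
  exact (le_inv_comm₀ (T_pos' _ _) ht1).1 hd.2

theorem hA0 : A0 := a0
theorem hB2 : B2 := b2
theorem hC0 : C0 := c0
theorem hD0 : D0 := d0 hA0 hB2 hC0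
theorem hF0 : F0 := f0 f1 f2 hB2 hC0

/-- the shift `0` -/
def s0 : Unit → ℤ := fun _ => 0

open Classical in
lemma Gb_eq (y : ℕ) (a b : ℝ) :
    Gb y s0 (fun _ => a) (fun _ => b) =
      (#((range (Q y)).filter (fun d : ℕ => a < T d y ∧ T d y ≤ b)) : ℝ) / Q y := by
  unfold Gb
  congr 2
  have h1 : (range (Q y)).filter (fun d : ℕ => InBox y s0 (fun _ => a) (fun _ => b) (d : ℤ)) =
      (range (Q y)).filter (fun d : ℕ => a < T d y ∧ T d y ≤ b) := by
    apply filter_congr
    intro d _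
    unfold InBox s0
    simp
  convert congrArg card h1

lemma Gb_Gy (y : ℕ) (t : ℝ) : Gb y s0 (fun _ => -1) (fun _ => t) = Gy y t := by
  classical
  rw [Gb_eq]
  unfold Gy
  congr 2
  convert rfl using 3
  rename_i d _
  have := T_pos' (d : ℤ) y
  constructor
  · intro h
    exact ⟨by linarith, h⟩
  · intro h
    exact h.2

lemma Gb_sub (y : ℕ) {a b : ℝ} (hab : a ≤ b) :
    Gb y s0 (fun _ => a) (fun _ => b) = Gy y b - Gy y a := by
  classical
  rw [Gb_eq]
  unfold Gy
  rw [← sub_div]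
  congr 1
  have h1 : (range (Q y)).filter (fun d : ℕ => T d y ≤ b) =
      (range (Q y)).filter (fun d : ℕ => a < T d y ∧ T d y ≤ b) ∪ (range (Q y)).filter (fun d : ℕ => T d y ≤ a) := by
    ext d
    rw [mem_union, mem_filter, mem_filter, mem_filter]
    constructor
    · rintro ⟨h1, h2⟩
      rcases le_or_gt (T d y) a with h | h
      · exact Or.inr ⟨h1, h⟩
      · exact Or.inl ⟨h1, h, h2⟩
    · rintro (⟨h1, h2, h3⟩ | ⟨h1, h2⟩)
      · exact ⟨h1, h3⟩
      · exact ⟨h1, h2.trans hab⟩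
  have h2 : Disjoint ((range (Q y)).filter (fun d : ℕ => a < T d y ∧ T d y ≤ b))
      ((range (Q y)).filter (fun d : ℕ => T d y ≤ a)) := by
    rw [disjoint_left]
    intro d hd hd'
    rw [mem_filter] at hd hd'
    linarith [hd.2.1, hd'.2]
  have h3 := card_union_of_disjoint h2
  rw [← h1] at h3
  have h4 : (#((range (Q y)).filter (fun d : ℕ => T d y ≤ b)) : ℝ) =
      #((range (Q y)).filter (fun d : ℕ => a < T d y ∧ T d y ≤ b)) + #((range (Q y)).filter (fun d : ℕ => T d y ≤ a)) := by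
    exact_mod_cast h3
  linarith

lemma Gy_small (y : ℕ) {t : ℝ} (ht : 0 < t) : Gy y t ≤ t * Real.exp 8 := by
  classical
  have hQ : (0 : ℝ) < Q y := by exact_mod_cast Q_pos y
  have h1 := markov wt2 y (s := 1) (z := 1) le_rfl le_rfl (show 0 < 1 / t by positivity)
  unfold Gy
  rw [div_le_iff₀ hQ]
  have hPP1 : PP 1 = ∅ := by
    ext p
    rw [mem_PP]
    simp only [notMem_empty, iff_false]
    omega
  rw [hPP1, prod_empty] at h1
  have h2 : (#((range (Q y)).filter (fun d : ℕ => T d y ≤ t)) : ℝ) ≤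
      #((range (Q y)).filter (fun d : ℕ => 1 / t ≤ WP w2 y (d : ℤ))) := by
    rw [Nat.cast_le]
    apply card_le_card
    intro d hd
    rw [mem_filter] at hd ⊢
    refine ⟨hd.1, ?_⟩
    rw [T_eq2, one_div]
    exact inv_anti₀ (T_pos' _ _) hd.2
  refine h2.trans (h1.trans (le_of_eq ?_))
  norm_num
  ring

lemma Gy_large (y : ℕ) {t : ℝ} (ht : 0 < t) : 1 - Gy y t ≤ 1 / t * Real.exp 8 := by
  classical
  have hQ : (0 : ℝ) < Q y := by exact_mod_cast Q_pos y
  have h1 := markov wt1 y (s := 1) (z := 1) le_rfl le_rfl ht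
  rw [one_sub_Gy, div_le_iff₀ hQ]
  have hPP1 : PP 1 = ∅ := by
    ext p
    rw [mem_PP]
    simp only [notMem_empty, iff_false]
    omega
  rw [hPP1, prod_empty] at h1
  have h2 : (#((range (Q y)).filter (fun d : ℕ => t < T d y)) : ℝ) ≤
      #((range (Q y)).filter (fun d : ℕ => t ≤ WP w1 y (d : ℤ))) := by
    rw [Nat.cast_le]
    apply card_le_card
    intro d hd
    rw [mem_filter] at hd ⊢
    exact ⟨hd.1, hd.2.le⟩
  refine h2.trans (h1.trans (le_of_eq ?_))
  norm_num
  ring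

lemma Gy_mono (y : ℕ) {a b : ℝ} (hab : a ≤ b) : Gy y a ≤ Gy y b := by
  classical
  unfold Gy
  apply div_le_div_of_nonneg_right _ (Nat.cast_nonneg _)
  rw [Nat.cast_le]
  apply card_le_card
  intro d hd
  rw [mem_filter] at hd ⊢
  exact ⟨hd.1, hd.2.trans hab⟩

theorem g0 : G0 := by
  classical
  obtain ⟨ρ, hρ⟩ := @hD0 Unit _ s0
  obtain ⟨G, hG⟩ : ∃ G : ℝ → ℝ, ∀ t, G t = ρ (fun _ => -1) (fun _ => t) := ⟨_, fun t => rfl⟩
  have hIsG : IsG G := by
    intro ε hε
    obtain ⟨y0, h⟩ := hρ ε hε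
    refine ⟨y0, fun y hy t => ?_⟩
    have h2 := h y hy (fun _ => -1) (fun _ => t)
    rw [Gb_Gy] at h2
    rw [hG]
    exact h2
  have hlim : ∀ t, Tendsto (fun y : ℕ => Gy y t) atTop (𝓝 (G t)) := by
    intro t
    rw [Metric.tendsto_atTop]
    intro e he
    obtain ⟨y2, hy2⟩ := hIsG (e / 2) (by linarith)
    refine ⟨y2, fun y hy => ?_⟩
    rw [Real.dist_eq]
    have := hy2 y hy t
    linarith
  have hmono : Monotone G := by
    intro a b hab
    exact le_of_tendsto_of_tendsto' (hlim a) (hlim b) (fun y => Gy_mono y hab)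
  have hsmall : ∀ t, 0 < t → G t ≤ t * Real.exp 8 := fun t ht => le_of_tendsto' (hlim t) (fun y => Gy_small y ht)
  have hlarge : ∀ t, 0 < t → 1 - G t ≤ 1 / t * Real.exp 8 :=
    fun t ht => le_of_tendsto' ((hlim t).const_sub 1) (fun y => Gy_large y ht)
  have hnonneg : ∀ t, 0 ≤ G t := by
    intro t
    apply ge_of_tendsto' (hlim t)
    intro y
    unfold Gy
    positivity
  have hle1 : ∀ t, G t ≤ 1 := by
    intro t
    apply le_of_tendsto' (hlim t)
    intro y
    have h1 := one_sub_Gy y t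
    have h2 : 0 ≤ (#((range (Q y)).filter (fun d : ℕ => t < T d y)) : ℝ) / Q y := by positivity
    linarith
  have hneg : ∀ t ≤ 0, G t = 0 := by
    intro t ht
    have h1 : ∀ y, Gy y t = 0 := by
      intro y
      unfold Gy
      have : (range (Q y)).filter (fun d : ℕ => T d y ≤ t) = ∅ := by
        apply filter_eq_empty_iff.2
        intro d _
        have := T_pos' (d : ℤ) y
        linarith
      rw [this]
      simp
    have h2 := hlim t
    simp_rw [h1] at h2
    exact tendsto_nhds_unique h2 tendsto_const_nhds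
  have hjump : ∀ ε : ℝ, 0 < ε → ∃ δ : ℝ, 0 < δ ∧ ∀ t : ℝ, 0 < t → G (t * (1 + δ)) - G t ≤ ε := by
    intro ε hε
    obtain ⟨y0, δ, hδ, -, h⟩ := hA0 ε hε
    refine ⟨δ, hδ, fun t ht => ?_⟩
    apply le_of_tendsto ((hlim (t * (1 + δ))).sub (hlim t))
    filter_upwards [eventually_ge_atTop y0] with y hy
    have h1 := h y hy 0 t ht
    rw [← Gb_sub y (by nlinarith), Gb_eq, div_le_iff₀ (by exact_mod_cast Q_pos y)]
    refine le_trans (le_of_eq ?_) h1
    simp only [add_zero]
  have hcont : Continuous G := by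
    rw [Metric.continuous_iff]
    intro b ε hε
    rcases le_or_gt b 0 with hb | hb
    · refine ⟨ε / (2 * Real.exp 8), by positivity, fun a ha => ?_⟩
      rw [Real.dist_eq] at ha ⊢
      rw [hneg b hb, sub_zero, abs_of_nonneg (hnonneg a)]
      rcases le_or_gt a 0 with ha0 | ha0
      · rw [hneg a ha0]; exact hε
      · have h1 := hsmall a ha0
        have h2 : a ≤ ε / (2 * Real.exp 8) := by
          have := (abs_lt.1 ha).2
          linarith
        have h3 : a * Real.exp 8 ≤ ε / (2 * Real.exp 8) * Real.exp 8 :=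
          mul_le_mul_of_nonneg_right h2 (Real.exp_pos _).le
        have h4 : ε / (2 * Real.exp 8) * Real.exp 8 = ε / 2 := by field_simp
        linarith
    · obtain ⟨δ, hδ, hj⟩ := hjump (ε / 2) (by linarith)
      refine ⟨b * δ / (1 + δ), by positivity, fun a ha => ?_⟩
      rw [Real.dist_eq] at ha ⊢
      have h1 : b * δ / (1 + δ) ≤ b * δ := div_le_self (by positivity) (by linarith)
      have h2 : b - b * δ / (1 + δ) = b / (1 + δ) := by field_simp; ring
      obtain ⟨ha1, ha2⟩ := abs_lt.1 ha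
      have h3 : b / (1 + δ) < a := by linarith
      have h4 : a ≤ b * (1 + δ) := by linarith
      have h5 : G a ≤ G (b * (1 + δ)) := hmono h4
      have h6 := hj b hb
      have h7 : 0 < b / (1 + δ) := by positivity
      have h8 := hj (b / (1 + δ)) h7
      have h9 : b / (1 + δ) * (1 + δ) = b := div_mul_cancel₀ _ (by linarith)
      rw [h9] at h8
      have h10 : G (b / (1 + δ)) ≤ G a := hmono h3.le
      rw [abs_lt]
      constructor <;> linarith
  refine ⟨G, hIsG, hcont, hneg, ?_, ?_, ?_⟩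
  · intro a ha b hb hab
    rw [Set.mem_Ici] at ha hb
    obtain ⟨c, hc, y0, h⟩ := @hF0 Unit _ s0 (fun _ _ _ => rfl) (fun _ => a) (fun _ => b) (fun _ => hab)
      (fun _ => lt_of_le_of_lt ha hab)
    have h1 : c ≤ G b - G a := by
      apply ge_of_tendsto ((hlim b).sub (hlim a))
      filter_upwards [eventually_ge_atTop y0] with y hy
      rw [← Gb_sub y hab.le]
      exact h y hy
    linarith
  · rw [Metric.tendsto_atTop]
    intro ε hε
    refine ⟨2 * Real.exp 8 / ε + 1, fun t ht => ?_⟩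
    have ht0 : 0 < t := lt_of_lt_of_le (by positivity) ht
    rw [Real.dist_eq, abs_sub_comm, abs_of_nonneg (by linarith [hle1 t])]
    have h1 := hlarge t ht0
    have h2 : 1 / t * Real.exp 8 ≤ ε / 2 := by
      rw [one_div_mul_eq_div, div_le_iff₀ ht0]
      have h3 : 2 * Real.exp 8 / ε ≤ t := by linarith
      rw [div_le_iff₀ hε] at h3
      linarith
    linarith
  · intro ρ' hρ' t
    have h1 : Tendsto (fun y : ℕ => Gy y t) atTop (𝓝 (ρ' (fun _ => -1) (fun _ => t))) := by
      rw [Metric.tendsto_atTop]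
      intro e he
      obtain ⟨y2, hy2⟩ := hρ' (e / 2) (by linarith)
      refine ⟨y2, fun y hy => ?_⟩
      rw [Real.dist_eq]
      have h2 := hy2 y hy (fun _ => -1) (fun _ => t)
      have h3 := Gb_Gy y t
      unfold s0 at h3
      rw [h3] at h2
      linarith
    exact tendsto_nhds_unique (hlim t) h1

end Pool.Agent.V5helper51.LL
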