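import Mathlib
import Pool.Agent.N511.LL.K0
import Pool.Agent.N511.LL.E0
import Pool.Agent.N511.LL.I0
import Pool.Agent.N792.T9Q
import Pool.Agent.V5helper51.LL.Lim

/-! The joint law of the prime counts of `n² + a + s_j`. -/

set_option autoImplicit false

namespace Pool.Agent.V5helper51.LL

open Finset Filter Topology
open Pool.Agent.N511.LL
open Pool.Agent.N511.LL.KK (len_ok pow_large ratio_est)

theorem hE0 : E0 := e0 hA0 hC0
theorem hI0 : I0 := i0 hB2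

/-- the number of the `1 ≤ m ≤ n` with `m² + c` prime -/
def P0 (c n : ℕ) : ℕ := #((Icc 1 n).filter (fun m : ℕ => (m ^ 2 + c).Prime))

/-- `(1/2) ∫_2^n dt / log t` -/
noncomputable def LI (n : ℕ) : ℝ := 1 / 2 * ∫ t in (2 : ℝ)..(n : ℝ), 1 / Real.log t

lemma li_low {u v : ℕ} (hu : 2 ≤ u) (huv : u ≤ v) :
    ((v : ℝ) - u) / Real.log v ≤ ∫ t in (u : ℝ)..(v : ℝ), 1 / Real.log t := by
  have hu2 : (2 : ℝ) ≤ u := by exact_mod_cast hu
  have huvr : (u : ℝ) ≤ v := by exact_mod_cast huv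
  have hint : IntervalIntegrable (fun t => 1 / Real.log t) MeasureTheory.volume u v := by
    apply ContinuousOn.intervalIntegrable
    rw [Set.uIcc_of_le huvr]
    apply ContinuousOn.div continuousOn_const
    · apply Real.continuousOn_log.mono
      intro t ht
      simp only [Set.mem_compl_iff, Set.mem_singleton_iff]
      have := ht.1
      linarith
    · intro t ht
      have := ht.1
      exact (Real.log_pos (by linarith)).ne'
  calc ((v : ℝ) - u) / Real.log v = ∫ _t in (u : ℝ)..(v : ℝ), 1 / Real.log v := by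
        rw [intervalIntegral.integral_const, smul_eq_mul, mul_one_div]
    _ ≤ _ := by
        apply intervalIntegral.integral_mono_on huvr intervalIntegrable_const hint
        intro t ht
        have h1 : 0 < Real.log t := Real.log_pos (by linarith [ht.1])
        exact one_div_le_one_div_of_le h1 (Real.log_le_log (by linarith [ht.1]) ht.2)

lemma LI_est (S : ℕ) (κ θ : ℝ) (hκ : 0 < κ) (hθ : 0 < θ) :
    ∃ N0 : ℕ, ∀ N : ℕ, N0 ≤ N → ∀ n : ℕ, κ * N ≤ n → n ≤ N →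
      |LI n - n / (2 * Real.log ((N + 2 * S : ℕ) : ℝ))| ≤ θ * (n / (2 * Real.log ((N + 2 * S : ℕ) : ℝ))) := by
  obtain ⟨N1, hN1⟩ := eventually_atTop.1 (Pool.Agent.N792.li_upper2 (θ * κ / 2) (by positivity))
  obtain ⟨N2, hN2⟩ := eventually_atTop.1 ((tendsto_natCast_atTop_atTop (R := ℝ)).eventually_ge_atTop
    (max (2 / (θ * κ)) (2 / κ)))
  refine ⟨N1 + N2 + 2 * S + 3, fun N hN n hn1 hn2 => ?_⟩
  obtain ⟨x, hx⟩ : ∃ x : ℕ, x = N + 2 * S := ⟨_, rfl⟩
  rw [← hx]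
  have hNr : (3 : ℝ) ≤ N := by exact_mod_cast (by omega : 3 ≤ N)
  have hx2N : (x : ℝ) ≤ 2 * N := by exact_mod_cast (by omega : x ≤ 2 * N)
  have hxr : (3 : ℝ) ≤ x := by exact_mod_cast (by omega : 3 ≤ x)
  have hlog : 0 < Real.log x := Real.log_pos (by linarith)
  have h1 := hN2 N (by omega)
  have h2 : 2 / (θ * κ) ≤ N := (le_max_left _ _).trans h1
  have h3 : 2 / κ ≤ N := (le_max_right _ _).trans h1
  rw [div_le_iff₀ hκ] at h3
  rw [div_le_iff₀ (by positivity)] at h2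
  have hn2r : (2 : ℝ) ≤ n := by linarith
  have hn2n : 2 ≤ n := by exact_mod_cast hn2r
  have hθn : 2 ≤ θ * n := by nlinarith
  have hli := hN1 x (by omega) 2 n le_rfl hn2n (by omega)
  have hlo := li_low (u := 2) (v := n) le_rfl hn2n
  push_cast at hli hlo
  have hlogn : 0 < Real.log n := Real.log_pos (by linarith)
  have hlognx : Real.log n ≤ Real.log x := Real.log_le_log (by linarith) (by exact_mod_cast (by omega : n ≤ x))
  have hup : ∫ t in (2 : ℝ)..(n : ℝ), 1 / Real.log t ≤ (1 + θ) * (n / Real.log x) := by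
    refine hli.trans ?_
    have e1 : ((n : ℝ) - 2) / Real.log x ≤ n / Real.log x := by
      apply div_le_div_of_nonneg_right _ hlog.le; linarith
    have e2 : θ * κ / 2 * (x / Real.log x) ≤ θ * (n / Real.log x) := by
      have e3 : θ * κ / 2 * (x / Real.log x) = (θ * (κ * x / 2)) / Real.log x := by ring
      have e4 : θ * (n / Real.log x) = (θ * n) / Real.log x := by ring
      rw [e3, e4]
      apply div_le_div_of_nonneg_right _ hlog.le
      apply mul_le_mul_of_nonneg_left _ hθ.le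
      nlinarith
    linarith
  have hdn : (1 - θ) * (n / Real.log x) ≤ ∫ t in (2 : ℝ)..(n : ℝ), 1 / Real.log t := by
    refine le_trans ?_ hlo
    calc (1 - θ) * (n / Real.log x) = ((1 - θ) * n) / Real.log x := by ring
      _ ≤ (n - 2) / Real.log x := by
          apply div_le_div_of_nonneg_right _ hlog.le
          linarith
      _ ≤ (n - 2) / Real.log n := div_le_div_of_nonneg_left (by linarith) hlogn hlognx
  have e5 : (n : ℝ) / (2 * Real.log x) = 1 / 2 * (n / Real.log x) := by ring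
  unfold LI
  rw [e5, abs_le]
  constructor
  · linarith
  · linarith

lemma T_four (c : ℤ) (y : ℕ) : T (((0 : ℕ) : ℤ) ^ 2 - 4 * c) y = T (-c) y := by
  unfold T loc
  apply prod_congr rfl
  intro p hp
  rw [mem_PP] at hp
  have h1 : (((0 : ℕ) : ℤ) ^ 2 - 4 * c) = 2 ^ 2 * (-c) := by push_cast; ring
  have h2 : jacobiSym (2 ^ 2) p = 1 := by
    apply jacobiSym.sq_one'
    rw [show (2 : ℤ) = ((2 : ℕ) : ℤ) by rfl, Int.gcd_natCast_natCast]
    exact (Nat.coprime_primes Nat.prime_two hp.1).2 (by omega)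
  rw [h1, jacobiSym.mul_left, h2, one_mul]

lemma core_est (S : ℕ) (ε κ ηE : ℝ) (hε : 0 < ε) (hκ : 0 < κ) (hκ1 : κ ≤ 1) (hηE : 0 < ηE) :
    ∃ y0 : ℕ, ∀ y : ℕ, y0 ≤ y → ∃ N0 : ℕ, ∀ N : ℕ, N0 ≤ N → ∀ A : ℕ, (N : ℝ) ^ (5 / 6 + ε) ≤ A → A ≤ N →
      ∃ Ex : Finset ℕ, (#Ex : ℝ) ≤ ηE * A ∧ ∀ c : ℕ, 1 ≤ c → c ≤ A + 2 * S →
        (c ∉ Ex → ∃ h : ℝ, Tendsto (fun z => T (-(c : ℤ)) z) atTop (𝓝 h) ∧
          |h - T (-(c : ℤ)) y| ≤ ηE * T (-(c : ℤ)) y) ∧
        ∀ n : ℕ, κ * N ≤ n → n ≤ N → 0 < LI n ∧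
          (c ∉ Ex → |(P0 c n : ℝ) / LI n - T (-(c : ℤ)) y| ≤ ηE * T (-(c : ℤ)) y) := by
  obtain ⟨ηL, hηL0, hηL1, hηL2⟩ : ∃ t : ℝ, 0 < t ∧ t ≤ 1 / 2 ∧ 4 * t ≤ ηE :=
    ⟨min (1 / 2) (ηE / 4), by positivity, min_le_left _ _, by have := min_le_right (1 / 2) (ηE / 4); linarith⟩
  obtain ⟨ηI, hηI0, hηI1⟩ : ∃ t : ℝ, 0 < t ∧ 16 * t ≤ κ * ηE := ⟨κ * ηE / 16, by positivity, by linarith⟩
  have hηIE : 8 * ηI ≤ ηE := by nlinarith
  have hsum : 2 * (4 * ηI / κ + ηL) ≤ ηE := by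
    have e1 : 4 * ηI / κ ≤ ηE / 4 := by
      rw [div_le_iff₀ hκ]; linarith
    linarith
  obtain ⟨y0, hy0⟩ := hI0 0 (Or.inl rfl) (ε / 2) ηI (by linarith) hηI0
  obtain ⟨N1, hN1⟩ := LI_est S κ ηL hκ hηL0
  obtain ⟨N2, hN2⟩ := len_ok S ε hε
  obtain ⟨N3, hN3⟩ := pow_large ε hε ((2 * S : ℕ) + 8)
  refine ⟨y0, fun y hy => ?_⟩
  obtain ⟨x0, hx0⟩ := hy0 y hy
  refine ⟨N1 + N2 + N3 + x0 + 2 * S + 3, fun N hN A hA hAN => ?_⟩
  obtain ⟨x, hx⟩ : ∃ x : ℕ, x = N + 2 * S := ⟨_, rfl⟩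
  have hA' : (x : ℝ) ^ (5 / 6 + ε / 2) ≤ (A + 2 * S : ℕ) := by
    have := hN2 N (by omega)
    rw [← hx] at this
    have e : (A : ℝ) ≤ (A + 2 * S : ℕ) := by exact_mod_cast (by omega : A ≤ A + 2 * S)
    linarith
  obtain ⟨Ex, -, hEx2, hEx3⟩ := hx0 x (by omega) (A + 2 * S) hA' (by omega)
  have hAbig := (hN3 N (by omega)).trans hA
  have hAbig' : 2 * S + 8 ≤ A := by exact_mod_cast hAbig
  refine ⟨Ex, ?_, ?_⟩
  · refine hEx2.trans ?_
    have e2 : ((A + 2 * S : ℕ) : ℝ) ≤ 2 * A := by exact_mod_cast (by omega : A + 2 * S ≤ 2 * A)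
    have hA0 : (0 : ℝ) ≤ A := Nat.cast_nonneg A
    nlinarith
  · intro c hc1 hcA
    refine ⟨?_, ?_⟩
    · intro hcEx
      obtain ⟨h, hh1, hh2⟩ := (hEx3 c (mem_Icc.2 ⟨hc1, hcA⟩) hcEx (fun h => absurd h (by norm_num))).1
      refine ⟨h, ?_, ?_⟩
      · refine hh1.congr fun z => ?_
        exact T_four c z
      · rw [T_four] at hh2
        refine hh2.trans ?_
        apply mul_le_mul_of_nonneg_right _ (T_pos' _ _).le
        linarith
    · intro n hn1 hn2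
      have hNr : (3 : ℝ) ≤ N := by exact_mod_cast (by omega : 3 ≤ N)
      have hn0 : (0 : ℝ) < n := lt_of_lt_of_le (by positivity) hn1
      have hxr : (1 : ℝ) < x := by exact_mod_cast (by omega : 1 < x)
      have hL0 : 0 < Real.log x := Real.log_pos hxr
      have hLI := hN1 N (by omega) n hn1 hn2
      rw [← hx] at hLI
      have hLIpos : 0 < LI n := by
        have := (abs_le.1 hLI).1
        have e1 : ηL * (n / (2 * Real.log x)) ≤ 1 / 2 * (n / (2 * Real.log x)) :=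
          mul_le_mul_of_nonneg_right hηL1 (by positivity)
        have e2 : 0 < n / (2 * Real.log x) := by positivity
        linarith
      refine ⟨hLIpos, fun hcEx => ?_⟩
      have h6 := (hEx3 c (mem_Icc.2 ⟨hc1, hcA⟩) hcEx (fun h => absurd h (by norm_num))).2 n (by omega)
      rw [T_four] at h6
      have hT0p : 0 < T (-(c : ℤ)) y := T_pos' _ _
      have hP : (#((Icc 1 n).filter (fun m : ℕ => (m ^ 2 + 0 * m + c).Prime)) : ℝ) = P0 c n := by
        unfold P0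
        simp only [zero_mul, add_zero]
      rw [hP] at h6
      have h10 : |(P0 c n : ℝ) - T (-(c : ℤ)) y * (n / (2 * Real.log x))| ≤
          2 * (ηI * (T (-(c : ℤ)) y * (x / (2 * Real.log x)))) := by
        have e1 : (1 + ((0 : ℕ) : ℝ)) * T (-(c : ℤ)) y * (n / (2 * Real.log x)) =
            T (-(c : ℤ)) y * (n / (2 * Real.log x)) := by push_cast; ring
        rw [e1] at h6
        refine h6.trans (le_of_eq ?_)
        ring
      refine (ratio_est (x := (x : ℝ)) (κ := κ) (ηI := ηI) (ηL := ηL) hT0p hn0 (by positivity) hκ hηI0.le hηL0.le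
        hηL1 hsum ?_ h10 hLI).1
      have e3 : (x : ℝ) ≤ 2 * N := by exact_mod_cast (by omega : x ≤ 2 * N)
      nlinarith

/-- reflection -/
lemma refl_card' (A : ℕ) (p q : ℕ → Prop) [DecidablePred p] [DecidablePred q]
    (h : ∀ i < A, (p (A - i) ↔ q i)) :
    #((Icc 1 A).filter p) = #((range A).filter q) := by
  refine card_nbij' (fun a => A - a) (fun i => A - i) ?_ ?_ ?_ ?_
  · intro a ha
    simp only [coe_filter, mem_Icc, mem_range, Set.mem_ofPred_eq] at ha ⊢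
    obtain ⟨⟨h1, h2⟩, hp⟩ := ha
    have hi : A - a < A := by omega
    refine ⟨hi, (h _ hi).1 ?_⟩
    have : A - (A - a) = a := by omega
    rw [this]; exact hp
  · intro i hi
    simp only [coe_filter, mem_Icc, mem_range, Set.mem_ofPred_eq] at hi ⊢
    exact ⟨⟨by omega, by omega⟩, (h i hi.1).2 hi.2⟩
  · intro a ha
    simp only [coe_filter, mem_Icc, Set.mem_ofPred_eq] at ha
    simp only
    omega
  · intro i hi
    simp only [coe_filter, mem_range, Set.mem_ofPred_eq] at hi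
    simp only
    omega

open Classical in
/-- the law of the prime counts -/
theorem law_P {ι : Type} [Fintype ι] (s : ι → ℕ) (ρ : (ι → ℝ) → (ι → ℝ) → ℝ)
    (hρ : IsLaw (fun j => -(s j : ℤ)) ρ) (ε κ η : ℝ) (hε : 0 < ε) (hκ : 0 < κ) (hκ1 : κ ≤ 1) (hη : 0 < η) :
    ∃ N0 : ℕ, ∀ N : ℕ, N0 ≤ N → ∀ A : ℕ, (N : ℝ) ^ (5 / 6 + ε) ≤ A → A ≤ N → ∀ α β : ι → ℝ,
      |(#((Icc 1 A).filter (fun a : ℕ => ∀ j, ∀ n : ℕ, κ * N ≤ n → n ≤ N →
        α j * LI n < P0 (a + s j) n ∧ (P0 (a + s j) n : ℝ) ≤ β j * LI n)) : ℝ) - A * ρ α β| ≤ η * A := by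
  obtain ⟨ηE, hηE0, y2, hy2⟩ := @hE0 ι _ _ ρ hρ η hη
  obtain ⟨S, hS⟩ : ∃ S : ℕ, ∀ j, s j ≤ S := ⟨univ.sup s, fun j => le_sup (mem_univ j)⟩
  obtain ⟨y3, hy3⟩ := core_est S ε κ ηE hε hκ hκ1 hηE0
  obtain ⟨y, hy⟩ : ∃ y, y = max y2 y3 := ⟨_, rfl⟩
  obtain ⟨M0, hM0⟩ := hy2 y (by rw [hy]; exact le_max_left _ _)
  obtain ⟨N1, hN1⟩ := hy3 y (by rw [hy]; exact le_max_right _ _)
  obtain ⟨N2, hN2⟩ := pow_large ε hε M0
  refine ⟨N1 + N2 + 1, fun N hN A hA1 hA2 α β => ?_⟩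
  obtain ⟨Ex, hEx1, hEx2⟩ := hN1 N (by omega) A hA1 hA2
  have hAbig := (hN2 N (by omega)).trans hA1
  have hAM0 : M0 ≤ A := by exact_mod_cast hAbig
  -- the extreme ratios
  obtain ⟨U, hU⟩ : ∃ U, U = (range (N + 1)).filter (fun n : ℕ => κ * N ≤ n) := ⟨_, rfl⟩
  have hne : U.Nonempty :=
    ⟨N, by rw [hU]; exact mem_filter.2 ⟨mem_range.2 (by omega), by nlinarith [(Nat.cast_nonneg N : (0 : ℝ) ≤ N)]⟩⟩
  have hUm : ∀ n, n ∈ U ↔ κ * N ≤ n ∧ n ≤ N := by
    intro n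
    rw [hU, mem_filter, mem_range]
    constructor
    · rintro ⟨h1, h2⟩; exact ⟨h2, by omega⟩
    · rintro ⟨h1, h2⟩; exact ⟨by omega, h1⟩
  set cc : ι → ℕ → ℕ := fun j i => A - i + s j with hcc
  set R : ℕ → ℕ → ℝ := fun c n => (P0 c n : ℝ) / LI n with hR
  set X : ι → ℕ → ℝ := fun j i => U.inf' hne (R (cc j i)) with hX
  set Y : ι → ℕ → ℝ := fun j i => U.sup' hne (R (cc j i)) with hY
  have hcc3 : ∀ j i, i < A → 1 ≤ cc j i ∧ cc j i ≤ A + 2 * S ∧
      (-(A : ℤ)) + ((1 : ℕ) : ℤ) * (i : ℤ) + -(s j : ℤ) = -(cc j i : ℤ) := by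
    intro j i hi
    have h1 := hS j
    have e1 : cc j i = A - i + s j := rfl
    refine ⟨by omega, by omega, ?_⟩
    rw [e1]
    omega
  have hbad : ∀ j, (#((range A).filter (fun i : ℕ =>
      ηE * T ((-(A : ℤ)) + ((1 : ℕ) : ℤ) * (i : ℤ) + -(s j : ℤ)) y <
        |X j i - T ((-(A : ℤ)) + ((1 : ℕ) : ℤ) * (i : ℤ) + -(s j : ℤ)) y| ∨
      ηE * T ((-(A : ℤ)) + ((1 : ℕ) : ℤ) * (i : ℤ) + -(s j : ℤ)) y <
        |Y j i - T ((-(A : ℤ)) + ((1 : ℕ) : ℤ) * (i : ℤ) + -(s j : ℤ)) y|)) : ℝ) ≤ ηE * A := by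
    intro j
    refine le_trans ?_ hEx1
    rw [Nat.cast_le]
    refine card_le_card_of_injOn (fun i => cc j i) ?_ ?_
    · intro i hi
      simp only [coe_filter, mem_range, Set.mem_ofPred_eq] at hi
      obtain ⟨hiM, hi2⟩ := hi
      obtain ⟨h3, h4, h6⟩ := hcc3 j i hiM
      rw [h6] at hi2
      by_contra hcon
      have hgood : ∀ n ∈ U, |R (cc j i) n - T (-(cc j i : ℤ)) y| ≤ ηE * T (-(cc j i : ℤ)) y :=
        fun n hn => ((hEx2 (cc j i) h3 h4).2 n ((hUm n).1 hn).1 ((hUm n).1 hn).2).2 hcon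
      obtain ⟨n1, hn1, e1⟩ := exists_mem_eq_inf' hne (R (cc j i))
      obtain ⟨n2, hn2, e2⟩ := exists_mem_eq_sup' hne (R (cc j i))
      have eX : X j i = R (cc j i) n1 := e1
      have eY : Y j i = R (cc j i) n2 := e2
      rw [eX, eY] at hi2
      rcases hi2 with h | h
      · exact absurd (hgood n1 hn1) (not_le.2 h)
      · exact absurd (hgood n2 hn2) (not_le.2 h)
    · intro i hi i' hi' h
      simp only [coe_filter, mem_range, Set.mem_ofPred_eq] at hi hi'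
      have h' : A - i + s j = A - i' + s j := h
      omega
  have hmain : |(#((range A).filter (fun i : ℕ => ∀ j, α j < X j i ∧ Y j i ≤ β j)) : ℝ) - A * ρ α β| ≤
      η * A := by
    convert hM0 A hAM0 1 (-(A : ℤ)) X Y (Nat.coprime_one_left _) hbad α β
  have hcount : #((Icc 1 A).filter (fun a : ℕ => ∀ j, ∀ n : ℕ, κ * N ≤ n → n ≤ N →
        α j * LI n < P0 (a + s j) n ∧ (P0 (a + s j) n : ℝ) ≤ β j * LI n)) =
      #((range A).filter (fun i : ℕ => ∀ j, α j < X j i ∧ Y j i ≤ β j)) := by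
    refine refl_card' A _ _ fun i hi => ?_
    refine forall_congr' fun j => ?_
    obtain ⟨h3, h4, -⟩ := hcc3 j i hi
    have h6 : ∀ n ∈ U, (α j * LI n < P0 (cc j i) n ↔ α j < R (cc j i) n) ∧
        ((P0 (cc j i) n : ℝ) ≤ β j * LI n ↔ R (cc j i) n ≤ β j) := by
      intro n hn
      have h7 := ((hEx2 (cc j i) h3 h4).2 n ((hUm n).1 hn).1 ((hUm n).1 hn).2).1
      exact ⟨(lt_div_iff₀ h7).symm, (div_le_iff₀ h7).symm⟩
    show (∀ n : ℕ, κ * N ≤ n → n ≤ N → α j * LI n < P0 (cc j i) n ∧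
      (P0 (cc j i) n : ℝ) ≤ β j * LI n) ↔ α j < U.inf' hne (R (cc j i)) ∧ U.sup' hne (R (cc j i)) ≤ β j
    rw [lt_inf'_iff, sup'_le_iff]
    constructor
    · intro h
      exact ⟨fun n hn => (h6 n hn).1.1 (h n ((hUm n).1 hn).1 ((hUm n).1 hn).2).1,
        fun n hn => (h6 n hn).2.1 (h n ((hUm n).1 hn).1 ((hUm n).1 hn).2).2⟩
    · rintro ⟨h, h'⟩ n hn1 hn2
      have hn := (hUm n).2 ⟨hn1, hn2⟩
      exact ⟨(h6 n hn).1.2 (h n hn), (h6 n hn).2.2 (h' n hn)⟩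
  rw [hcount]
  exact hmain

open Classical in
/-- the law of the constants `h_a` -/
theorem law_h {ι : Type} [Fintype ι] (s : ι → ℕ) (ρ : (ι → ℝ) → (ι → ℝ) → ℝ)
    (hρ : IsLaw (fun j => -(s j : ℤ)) ρ) (η : ℝ) (hη : 0 < η) :
    ∃ X0 : ℕ, ∀ A : ℕ, X0 ≤ A → ∀ α β : ι → ℝ,
      |(#((Icc 1 A).filter (fun a : ℕ => ∀ j, ∃ h : ℝ,
        Tendsto (fun z => T (-((a + s j : ℕ) : ℤ)) z) atTop (𝓝 h) ∧ α j < h ∧ h ≤ β j)) : ℝ) - A * ρ α β| ≤ η * A := by
  obtain ⟨ηE0, hηE0', y2, hy2⟩ := @hE0 ι _ _ ρ hρ (η / 2) (by linarith)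
  obtain ⟨ηE, hηE⟩ : ∃ x, x = min ηE0 (η / (2 * (Fintype.card ι + 1))) := ⟨_, rfl⟩
  have hηE0 : 0 < ηE := by rw [hηE]; positivity
  have hηE1 : ηE ≤ ηE0 := by rw [hηE]; exact min_le_left _ _
  have hηE2 : ηE ≤ η / (2 * (Fintype.card ι + 1)) := by rw [hηE]; exact min_le_right _ _
  obtain ⟨S, hS⟩ : ∃ S : ℕ, ∀ j, s j ≤ S := ⟨univ.sup s, fun j => le_sup (mem_univ j)⟩
  obtain ⟨y3, hy3⟩ := core_est S (1 / 6) 1 ηE (by norm_num) one_pos le_rfl hηE0
  obtain ⟨y, hy⟩ : ∃ y, y = max y2 y3 := ⟨_, rfl⟩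
  obtain ⟨M0, hM0⟩ := hy2 y (by rw [hy]; exact le_max_left _ _)
  obtain ⟨N1, hN1⟩ := hy3 y (by rw [hy]; exact le_max_right _ _)
  refine ⟨N1 + M0 + 1, fun A hA α β => ?_⟩
  obtain ⟨Ex, hEx1, hEx2⟩ := hN1 A (by omega) A (by norm_num) le_rfl
  set H : ℕ → ℝ := fun c => if hc : ∃ h : ℝ, Tendsto (fun z => T (-(c : ℤ)) z) atTop (𝓝 h) then hc.choose else 0 with hH
  have hHs : ∀ (c : ℕ) (h : ℝ), Tendsto (fun z => T (-(c : ℤ)) z) atTop (𝓝 h) → H c = h := by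
    intro c h hc
    have hex : ∃ h : ℝ, Tendsto (fun z => T (-(c : ℤ)) z) atTop (𝓝 h) := ⟨h, hc⟩
    have e : H c = hex.choose := dif_pos hex
    rw [e]
    exact tendsto_nhds_unique hex.choose_spec hc
  set cc : ι → ℕ → ℕ := fun j i => A - i + s j with hcc
  have hcc3 : ∀ j i, i < A → 1 ≤ cc j i ∧ cc j i ≤ A + 2 * S ∧
      (-(A : ℤ)) + ((1 : ℕ) : ℤ) * (i : ℤ) + -(s j : ℤ) = -(cc j i : ℤ) := by
    intro j i hi
    have h1 := hS j
    have e1 : cc j i = A - i + s j := rfl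
    refine ⟨by omega, by omega, ?_⟩
    rw [e1]
    omega
  have hbad : ∀ j, (#((range A).filter (fun i : ℕ =>
      ηE0 * T ((-(A : ℤ)) + ((1 : ℕ) : ℤ) * (i : ℤ) + -(s j : ℤ)) y <
        |H (cc j i) - T ((-(A : ℤ)) + ((1 : ℕ) : ℤ) * (i : ℤ) + -(s j : ℤ)) y| ∨
      ηE0 * T ((-(A : ℤ)) + ((1 : ℕ) : ℤ) * (i : ℤ) + -(s j : ℤ)) y <
        |H (cc j i) - T ((-(A : ℤ)) + ((1 : ℕ) : ℤ) * (i : ℤ) + -(s j : ℤ)) y|)) : ℝ) ≤ ηE0 * A := by
    intro j
    refine le_trans ?_ (hEx1.trans (mul_le_mul_of_nonneg_right hηE1 (Nat.cast_nonneg A)))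
    rw [Nat.cast_le]
    refine card_le_card_of_injOn (fun i => cc j i) ?_ ?_
    · intro i hi
      simp only [coe_filter, mem_range, Set.mem_ofPred_eq, or_self] at hi
      obtain ⟨hiM, hi2⟩ := hi
      obtain ⟨h3, h4, h6⟩ := hcc3 j i hiM
      rw [h6] at hi2
      by_contra hcon
      obtain ⟨h, hh1, hh2⟩ := (hEx2 (cc j i) h3 h4).1 hcon
      rw [hHs _ h hh1] at hi2
      have h7 : ηE * T (-(cc j i : ℤ)) y ≤ ηE0 * T (-(cc j i : ℤ)) y :=
        mul_le_mul_of_nonneg_right hηE1 (T_pos' _ _).le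
      linarith
    · intro i hi i' hi' h
      simp only [coe_filter, mem_range, Set.mem_ofPred_eq, or_self] at hi hi'
      have h' : A - i + s j = A - i' + s j := h
      omega
  have hmain : |(#((range A).filter (fun i : ℕ => ∀ j, α j < H (cc j i) ∧ H (cc j i) ≤ β j)) : ℝ) - A * ρ α β| ≤
      η / 2 * A := by
    convert hM0 A (by omega) 1 (-(A : ℤ)) (fun j i => H (cc j i)) (fun j i => H (cc j i))
      (Nat.coprime_one_left _) hbad α β
  have hcount : #((Icc 1 A).filter (fun a : ℕ => ∀ j, α j < H (a + s j) ∧ H (a + s j) ≤ β j)) =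
      #((range A).filter (fun i : ℕ => ∀ j, α j < H (cc j i) ∧ H (cc j i) ≤ β j)) := by
    refine refl_card' A _ _ fun i hi => ?_
    rfl
  rw [← hcount] at hmain
  -- comparison
  set B := univ.biUnion (fun j : ι => (Icc 1 A).filter (fun a : ℕ => a + s j ∈ Ex)) with hB
  have hBcard : (#B : ℝ) ≤ η / 2 * A := by
    have h1 : #B ≤ ∑ j : ι, #((Icc 1 A).filter (fun a : ℕ => a + s j ∈ Ex)) := card_biUnion_le
    have h2 : ∀ j : ι, #((Icc 1 A).filter (fun a : ℕ => a + s j ∈ Ex)) ≤ #Ex := by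
      intro j
      apply card_le_card_of_injOn (fun a => a + s j)
      · intro a ha
        rw [mem_coe, mem_filter] at ha
        exact ha.2
      · intro a _ b _ hab
        simpa using hab
    have h3 : #B ≤ Fintype.card ι * #Ex := by
      refine h1.trans ((sum_le_sum (fun j _ => h2 j)).trans (le_of_eq ?_))
      rw [sum_const, smul_eq_mul, card_univ]
    have h4 : (#B : ℝ) ≤ Fintype.card ι * #Ex := by exact_mod_cast h3
    refine h4.trans ?_
    have hA0 : (0 : ℝ) ≤ A := Nat.cast_nonneg A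
    have hι : (0 : ℝ) ≤ Fintype.card ι := Nat.cast_nonneg _
    calc (Fintype.card ι : ℝ) * #Ex ≤ (Fintype.card ι : ℝ) * (η / (2 * (Fintype.card ι + 1)) * A) := by
          apply mul_le_mul_of_nonneg_left _ hι
          exact hEx1.trans (mul_le_mul_of_nonneg_right hηE2 hA0)
      _ = (Fintype.card ι / (Fintype.card ι + 1)) * (η / 2 * A) := by field_simp
      _ ≤ 1 * (η / 2 * A) := by
          apply mul_le_mul_of_nonneg_right _ (by positivity)
          rw [div_le_one (by positivity)]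
          linarith
      _ = η / 2 * A := one_mul _
  have hiff : ∀ a ∈ Icc 1 A, a ∉ B → ((∀ j, ∃ h : ℝ,
      Tendsto (fun z => T (-((a + s j : ℕ) : ℤ)) z) atTop (𝓝 h) ∧ α j < h ∧ h ≤ β j) ↔
      ∀ j, α j < H (a + s j) ∧ H (a + s j) ≤ β j) := by
    intro a ha haB
    refine forall_congr' fun j => ?_
    have hnot : a + s j ∉ Ex := by
      intro hc
      apply haB
      rw [hB, mem_biUnion]
      exact ⟨j, mem_univ _, mem_filter.2 ⟨ha, hc⟩⟩
    rw [mem_Icc] at ha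
    have h1 := hS j
    obtain ⟨h, hh1, -⟩ := (hEx2 (a + s j) (by omega) (by omega)).1 hnot
    rw [hHs _ h hh1]
    constructor
    · rintro ⟨h', k1, k2, k3⟩
      have := tendsto_nhds_unique k1 hh1
      rw [← this]
      exact ⟨k2, k3⟩
    · rintro ⟨k2, k3⟩
      exact ⟨h, hh1, k2, k3⟩
  set F1 := (Icc 1 A).filter (fun a : ℕ => ∀ j, ∃ h : ℝ,
      Tendsto (fun z => T (-((a + s j : ℕ) : ℤ)) z) atTop (𝓝 h) ∧ α j < h ∧ h ≤ β j) with hF1
  set F2 := (Icc 1 A).filter (fun a : ℕ => ∀ j, α j < H (a + s j) ∧ H (a + s j) ≤ β j) with hF2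
  have hd1 : (#F1 : ℝ) ≤ #F2 + #B := by
    have : F1 ⊆ F2 ∪ B := by
      intro a ha
      rw [mem_union]
      by_cases haB : a ∈ B
      · exact Or.inr haB
      · rw [hF1, mem_filter] at ha
        exact Or.inl (by rw [hF2, mem_filter]; exact ⟨ha.1, (hiff a ha.1 haB).1 ha.2⟩)
    exact_mod_cast (card_le_card this).trans (card_union_le _ _)
  have hd2 : (#F2 : ℝ) ≤ #F1 + #B := by
    have : F2 ⊆ F1 ∪ B := by
      intro a ha
      rw [mem_union]
      by_cases haB : a ∈ B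
      · exact Or.inr haB
      · rw [hF2, mem_filter] at ha
        exact Or.inl (by rw [hF1, mem_filter]; exact ⟨ha.1, (hiff a ha.1 haB).2 ha.2⟩)
    exact_mod_cast (card_le_card this).trans (card_union_le _ _)
  rw [abs_le] at hmain ⊢
  constructor
  · linarith [hmain.1]
  · linarith [hmain.2]

end Pool.Agent.V5helper51.LL
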