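import Mathlib
import Pool.Agent.V5helper51.LL.Jf

/-! The limit law: assembly. -/

set_option autoImplicit false

namespace Pool.Agent.V5helper51.LL

open Finset Filter Topology
open Pool.Agent.N511.LL

lemma eg_inv : 2 / eg = 2 * Real.exp (-Real.eulerMascheroniConstant) := by
  unfold eg
  rw [Real.exp_neg]
  ring

lemma tail_lim {F : ℝ → ℝ} {c : ℝ}
    (h1 : ∀ δ : ℝ, 0 < δ → ∃ t0 : ℝ, ∀ t : ℝ, t0 ≤ t → Real.exp (-Real.exp ((c + δ) * t)) ≤ F t)
    (h2 : ∀ δ : ℝ, 0 < δ → ∃ t0 : ℝ, ∀ t : ℝ, t0 ≤ t → F t ≤ Real.exp (-Real.exp ((c - δ) * t))) :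
    Tendsto (fun t : ℝ => Real.log (-Real.log (F t)) / t) atTop (𝓝 c) := by
  rw [Metric.tendsto_atTop]
  intro ε hε
  obtain ⟨t1, k1⟩ := h1 (ε / 2) (by linarith)
  obtain ⟨t2, k2⟩ := h2 (ε / 2) (by linarith)
  refine ⟨max (max t1 t2) 1, fun t ht => ?_⟩
  have ht1 : t1 ≤ t := le_trans (le_trans (le_max_left _ _) (le_max_left _ _)) ht
  have ht2 : t2 ≤ t := le_trans (le_trans (le_max_right _ _) (le_max_left _ _)) ht
  have ht3 : 0 < t := lt_of_lt_of_le one_pos (le_trans (le_max_right _ _) ht)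
  have a1 := k1 t ht1
  have a2 := k2 t ht2
  have hF : 0 < F t := lt_of_lt_of_le (Real.exp_pos _) a1
  have b1 := Real.log_le_log (Real.exp_pos _) a1
  have b2 := Real.log_le_log hF a2
  rw [Real.log_exp] at b1 b2
  have c1 : -Real.log (F t) ≤ Real.exp ((c + ε / 2) * t) := by linarith
  have c2 : Real.exp ((c - ε / 2) * t) ≤ -Real.log (F t) := by linarith
  have d1 := Real.log_le_log (lt_of_lt_of_le (Real.exp_pos _) c2) c1
  have d2 := Real.log_le_log (Real.exp_pos _) c2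
  rw [Real.log_exp] at d1 d2
  rw [Real.dist_eq, abs_lt]
  have e1 : Real.log (-Real.log (F t)) / t ≤ c + ε / 2 := by
    rw [div_le_iff₀ ht3]; exact d1
  have e2 : c - ε / 2 ≤ Real.log (-Real.log (F t)) / t := by
    rw [le_div_iff₀ ht3]; exact d2
  constructor <;> linarith

theorem G_tails {G : ℝ → ℝ} (hG : IsG G) {C2 : ℝ} (hC2 : 0 < C2)
    (hlimC : Tendsto (fun y : ℕ => Real.log y * ∏ p ∈ PP y, (1 - 1 / ((p : ℝ) - 1))) atTop (𝓝 (2 * C2 / eg))) :
    Tendsto (fun t : ℝ => Real.log (-Real.log (1 - G t)) / t) atTop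
      (𝓝 (2 * Real.exp (-Real.eulerMascheroniConstant))) ∧
    Tendsto (fun t : ℝ => Real.log (-Real.log (G (1 / t))) / t) atTop
      (𝓝 (2 * C2 * Real.exp (-Real.eulerMascheroniConstant))) := by
  have hlim : ∀ t, Tendsto (fun y : ℕ => Gy y t) atTop (𝓝 (G t)) := by
    intro t
    rw [Metric.tendsto_atTop]
    intro e he
    obtain ⟨y2, hy2⟩ := hG (e / 2) (by linarith)
    refine ⟨y2, fun y hy => ?_⟩
    rw [Real.dist_eq]
    have := hy2 y hy t
    linarith
  constructor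
  · rw [← eg_inv]
    apply tail_lim
    · intro δ hδ
      obtain ⟨t0, h⟩ := h1 δ hδ
      refine ⟨t0, fun t ht => ?_⟩
      obtain ⟨y0, h'⟩ := h t ht
      apply ge_of_tendsto ((hlim t).const_sub 1)
      filter_upwards [eventually_ge_atTop y0] with y hy
      exact h' y hy
    · intro δ hδ
      obtain ⟨t0, h⟩ := h2 δ hδ
      refine ⟨t0, fun t ht => ?_⟩
      exact le_of_tendsto' ((hlim t).const_sub 1) (fun y => h t ht y)
  · have e : 2 * C2 * Real.exp (-Real.eulerMascheroniConstant) = 2 * C2 / eg := by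
      unfold eg
      rw [Real.exp_neg]
      ring
    rw [e]
    apply tail_lim
    · intro δ hδ
      obtain ⟨t0, h⟩ := h3 C2 hC2 hlimC δ hδ
      refine ⟨t0, fun t ht => ?_⟩
      obtain ⟨y0, h'⟩ := h t ht
      apply ge_of_tendsto (hlim (1 / t))
      filter_upwards [eventually_ge_atTop y0] with y hy
      exact h' y hy
    · intro δ hδ
      obtain ⟨t0, h⟩ := h4 C2 hC2 hlimC δ hδ
      refine ⟨t0, fun t ht => ?_⟩
      exact le_of_tendsto' (hlim (1 / t)) (fun y => h t ht y)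

open Classical in
theorem fin_single {G : ℝ → ℝ} (hGρ : ∀ ρ, IsLaw (fun _ : Unit => (0 : ℤ)) ρ → ∀ t, G t = ρ (fun _ => -1) (fun _ => t)) :
    (∀ t η : ℝ, 0 < η → ∃ X0 : ℕ, ∀ A : ℕ, X0 ≤ A →
      |(#((Icc 1 A).filter (fun a : ℕ => ∃ h : ℝ, Tendsto (fun z => T (-(a : ℤ)) z) atTop (𝓝 h) ∧ h ≤ t)) : ℝ) -
        A * G t| ≤ η * A) ∧
    (∀ ε η : ℝ, 0 < ε → 0 < η → ∃ N0 : ℕ, ∀ N : ℕ, N0 ≤ N → ∀ A : ℕ, (N : ℝ) ^ (5 / 6 + ε) ≤ A → A ≤ N → ∀ t : ℝ,
      |(#((Icc 1 A).filter (fun a : ℕ => (P0 a N : ℝ) ≤ t * LI N)) : ℝ) - A * G t| ≤ η * A) := by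
  obtain ⟨ρ, hρ⟩ := @hD0 Unit _ s0
  have hρ' : IsLaw (fun _ : Unit => -(((0 : ℕ)) : ℤ)) ρ := by
    have : (fun _ : Unit => -(((0 : ℕ)) : ℤ)) = s0 := by
      funext _
      unfold s0
      simp
    rw [this]
    exact hρ
  have hGt := hGρ ρ hρ
  constructor
  · intro t η hη
    obtain ⟨X0, h⟩ := law_h (fun _ : Unit => (0 : ℕ)) ρ hρ' η hη
    refine ⟨X0, fun A hA => ?_⟩
    have h1 := h A hA (fun _ => -1) (fun _ => t)
    rw [hGt]
    refine le_trans (le_of_eq ?_) h1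
    congr 3
    congr 1
    apply filter_congr
    intro a _
    constructor
    · rintro ⟨h, k1, k2⟩ _
      refine ⟨h, by simpa using k1, ?_, k2⟩
      have : 0 ≤ h := ge_of_tendsto' k1 (fun z => (T_pos' _ _).le)
      linarith
    · intro k
      obtain ⟨h, k1, -, k3⟩ := k ()
      exact ⟨h, by simpa using k1, k3⟩
  · intro ε η hε hη
    obtain ⟨N0, h⟩ := law_P (fun _ : Unit => (0 : ℕ)) ρ hρ' ε 1 η hε one_pos le_rfl hη
    refine ⟨max N0 4, fun N hN A hA1 hA2 t => ?_⟩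
    have h1 := h N (le_trans (le_max_left _ _) hN) A hA1 hA2 (fun _ => -1) (fun _ => t)
    have hN4 : 4 ≤ N := le_trans (le_max_right _ _) hN
    have hLI : 0 < LI N := by
      unfold LI
      have h2 := li_low (u := 2) (v := N) le_rfl (by omega)
      push_cast at h2
      have hNr : (4 : ℝ) ≤ N := by exact_mod_cast hN4
      have h3 : 0 < ((N : ℝ) - 2) / Real.log N := div_pos (by linarith) (Real.log_pos (by linarith))
      linarith
    rw [hGt]
    refine le_trans (le_of_eq ?_) h1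
    congr 3
    congr 1
    apply filter_congr
    intro a _
    constructor
    · intro k _ n hn1 hn2
      have hnN : n = N := by
        have : (N : ℝ) ≤ n := by linarith
        exact le_antisymm hn2 (by exact_mod_cast this)
      subst hnN
      rw [add_zero]
      refine ⟨?_, k⟩
      have : (0 : ℝ) ≤ P0 a n := Nat.cast_nonneg _
      linarith
    · intro k
      have := (k () N (by linarith) le_rfl).2
      rwa [add_zero] at this

end Pool.Agent.V5helper51.LL
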